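import Mathlib

open MeasureTheory Finset

set_option linter.unusedSectionVars false

namespace Pool.Agent.H66.RGG

/-! # Calculus of bounded measurable functions on a finite product probability space -/

/-- bounded measurable real functions -/
structure BM {X : Type*} [MeasurableSpace X] (F : X → ℝ) : Prop where
  meas : Measurable F
  bdd : ∃ C : ℝ, ∀ x, |F x| ≤ C

namespace BM

variable {X : Type*} [MeasurableSpace X] {F G : X → ℝ}

theorem const (c : ℝ) : BM (fun _ : X => c) := ⟨measurable_const, |c|, fun _ => le_rfl⟩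

theorem mul (hF : BM F) (hG : BM G) : BM (fun x => F x * G x) := by
  obtain ⟨C, hC⟩ := hF.bdd
  obtain ⟨D, hD⟩ := hG.bdd
  refine ⟨hF.meas.mul hG.meas, C * D, fun x => ?_⟩
  rw [abs_mul]
  exact mul_le_mul (hC x) (hD x) (abs_nonneg _) ((abs_nonneg _).trans (hC x))

theorem add (hF : BM F) (hG : BM G) : BM (fun x => F x + G x) := by
  obtain ⟨C, hC⟩ := hF.bdd
  obtain ⟨D, hD⟩ := hG.bdd
  exact ⟨hF.meas.add hG.meas, C + D, fun x => (abs_add_le _ _).trans (add_le_add (hC x) (hD x))⟩

theorem neg (hF : BM F) : BM (fun x => - F x) := by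
  obtain ⟨C, hC⟩ := hF.bdd
  exact ⟨hF.meas.neg, C, fun x => by rw [abs_neg]; exact hC x⟩

theorem sub (hF : BM F) (hG : BM G) : BM (fun x => F x - G x) := by
  simpa only [sub_eq_add_neg] using hF.add hG.neg

theorem abs (hF : BM F) : BM (fun x => |F x|) := by
  obtain ⟨C, hC⟩ := hF.bdd
  exact ⟨hF.meas.abs, C, fun x => by rw [abs_abs]; exact hC x⟩

theorem pow (hF : BM F) (n : ℕ) : BM (fun x => F x ^ n) := by
  obtain ⟨C, hC⟩ := hF.bdd
  exact ⟨hF.meas.pow_const n, C ^ n, fun x => by
    rw [abs_pow]; exact pow_le_pow_left₀ (abs_nonneg _) (hC x) n⟩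

theorem prod {ε : Type*} {f : ε → X → ℝ} (s : Finset ε) (h : ∀ e ∈ s, BM (f e)) :
    BM (fun x => ∏ e ∈ s, f e x) := by
  classical
  induction s using Finset.induction_on with
  | empty => simpa using const 1
  | insert a s ha ih =>
    simp only [Finset.prod_insert ha]
    exact (h a (mem_insert_self _ _)).mul (ih fun e he => h e (mem_insert_of_mem he))

theorem sum {ε : Type*} {f : ε → X → ℝ} (s : Finset ε) (h : ∀ e ∈ s, BM (f e)) :
    BM (fun x => ∑ e ∈ s, f e x) := by
  classical
  induction s using Finset.induction_on with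
  | empty => simpa using const 0
  | insert a s ha ih =>
    simp only [Finset.sum_insert ha]
    exact (h a (mem_insert_self _ _)).add (ih fun e he => h e (mem_insert_of_mem he))

theorem comp {Y : Type*} [MeasurableSpace Y] (hF : BM F) {f : Y → X} (hf : Measurable f) :
    BM (fun y => F (f y)) := by
  obtain ⟨C, hC⟩ := hF.bdd
  exact ⟨hF.meas.comp hf, C, fun y => hC _⟩

theorem integrable (hF : BM F) (P : Measure X) [IsFiniteMeasure P] : Integrable F P := by
  obtain ⟨C, hC⟩ := hF.bdd
  exact Integrable.of_bound hF.meas.aestronglyMeasurable C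
    (Filter.Eventually.of_forall fun x => by rw [Real.norm_eq_abs]; exact hC x)

theorem indicator (hF : BM F) {s : Set X} (hs : MeasurableSet s) : BM (s.indicator F) := by
  obtain ⟨C, hC⟩ := hF.bdd
  refine ⟨hF.meas.indicator hs, |C|, fun x => ?_⟩
  by_cases hx : x ∈ s
  · rw [Set.indicator_of_mem hx]; exact (hC x).trans (le_abs_self _)
  · rw [Set.indicator_of_notMem hx, abs_zero]; exact abs_nonneg _

end BM

/-- Cauchy-Schwarz for bounded functions -/
theorem cs {X : Type*} [MeasurableSpace X] (P : Measure X) [IsFiniteMeasure P] {F G : X → ℝ}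
    (hF : BM F) (hG : BM G) :
    ∫ x, F x * G x ∂P ≤ (∫ x, F x ^ 2 ∂P) ^ (1 / 2 : ℝ) * (∫ x, G x ^ 2 ∂P) ^ (1 / 2 : ℝ) := by
  have hp : (2 : ℝ).HolderConjugate 2 := by
    rw [Real.holderConjugate_iff]; norm_num
  have hFL : MemLp F (ENNReal.ofReal 2) P := by
    obtain ⟨C, hC⟩ := hF.bdd
    exact MemLp.of_bound hF.meas.aestronglyMeasurable C
      (Filter.Eventually.of_forall fun x => by rw [Real.norm_eq_abs]; exact hC x)
  have hGL : MemLp G (ENNReal.ofReal 2) P := by
    obtain ⟨C, hC⟩ := hG.bdd
    exact MemLp.of_bound hG.meas.aestronglyMeasurable C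
      (Filter.Eventually.of_forall fun x => by rw [Real.norm_eq_abs]; exact hC x)
  have h1 := integral_mul_norm_le_Lp_mul_Lq (μ := P) hp hFL hGL
  have h2 : ∫ x, F x * G x ∂P ≤ ∫ x, ‖F x‖ * ‖G x‖ ∂P := by
    apply integral_mono ((hF.mul hG).integrable P)
    · have := (hF.abs.mul hG.abs).integrable P
      simpa [Real.norm_eq_abs] using this
    · intro x
      simp only [Real.norm_eq_abs]
      rw [← abs_mul]
      exact le_abs_self _
  refine h2.trans (h1.trans (le_of_eq ?_))
  congr 2
  · congr 1
    ext x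
    rw [Real.norm_eq_abs]
    norm_cast
    exact sq_abs _
  · congr 1
    ext x
    rw [Real.norm_eq_abs]
    norm_cast
    exact sq_abs _

section marginal

variable {Ω : Type*} [MeasurableSpace Ω] (μ : Measure Ω) [IsProbabilityMeasure μ]
variable {ι : Type*} [Fintype ι] [DecidableEq ι]

/-- integrate the coordinate `a` -/
noncomputable def mg (a : ι) (F : (ι → Ω) → ℝ) (x : ι → Ω) : ℝ :=
  ∫ y, F (Function.update x a y) ∂μ

/-- `F` does not depend on the coordinate `a` -/
def Ind (a : ι) (F : (ι → Ω) → ℝ) : Prop := ∀ x y, F (Function.update x a y) = F x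

/-- the product measure -/
noncomputable abbrev PP : Measure (ι → Ω) := Measure.pi fun _ : ι => μ

variable {μ}

theorem BM.update {F : (ι → Ω) → ℝ} (hF : BM F) (a : ι) :
    BM (fun p : (ι → Ω) × Ω => F (Function.update p.1 a p.2)) :=
  hF.comp measurable_update'

theorem BM.mg {F : (ι → Ω) → ℝ} (hF : BM F) (a : ι) : BM (mg μ a F) := by
  obtain ⟨C, hC⟩ := hF.bdd
  refine ⟨?_, C, fun x => ?_⟩
  · exact ((hF.update a).meas.stronglyMeasurable.integral_prod_right' (ν := μ)).measurable
  · have h1 : |RGG.mg μ a F x| ≤ ∫ y, |F (Function.update x a y)| ∂μ :=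
      abs_integral_le_integral_abs
    refine h1.trans ?_
    have h2 : ∫ y, |F (Function.update x a y)| ∂μ ≤ ∫ _, C ∂μ := by
      apply integral_mono_of_nonneg
      · exact Filter.Eventually.of_forall fun y => abs_nonneg _
      · exact integrable_const _
      · exact Filter.Eventually.of_forall fun y => hC _
    simpa using h2

theorem update_mp (a : ι) :
    MeasurePreserving (fun p : (ι → Ω) × Ω => Function.update p.1 a p.2)
      ((PP μ).prod μ) (PP (ι := ι) μ) := by
  refine ⟨measurable_update', ?_⟩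
  symm
  apply Measure.pi_eq
  intro s hs
  rw [Measure.map_apply measurable_update' (MeasurableSet.univ_pi hs)]
  have e : (fun p : (ι → Ω) × Ω => Function.update p.1 a p.2) ⁻¹' (Set.univ.pi s) =
      (Set.univ.pi (Function.update s a Set.univ)) ×ˢ (s a) := by
    ext ⟨x, y⟩
    simp only [Set.mem_preimage, Set.mem_univ_pi, Set.mem_prod]
    constructor
    · intro h
      refine ⟨fun i => ?_, ?_⟩
      · by_cases hi : i = a
        · subst hi; simp
        · have := h i
          simpa [Function.update_of_ne hi] using this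
      · simpa using h a
    · rintro ⟨h1, h2⟩ i
      by_cases hi : i = a
      · subst hi; simpa using h2
      · have := h1 i
        simpa [Function.update_of_ne hi] using this
  rw [e, Measure.prod_prod, Measure.pi_pi]
  rw [← Finset.mul_prod_erase _ _ (Finset.mem_univ a), ← Finset.mul_prod_erase Finset.univ
    (fun i => μ (s i)) (Finset.mem_univ a)]
  simp only [Function.update_self, measure_univ, one_mul]
  rw [mul_comm]
  congr 1
  apply Finset.prod_congr rfl
  intro i hi
  rw [Function.update_of_ne (Finset.ne_of_mem_erase hi)]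

/-- Fubini -/
theorem integral_mg {F : (ι → Ω) → ℝ} (hF : BM F) (a : ι) :
    ∫ x, mg μ a F x ∂(PP μ) = ∫ x, F x ∂(PP μ) := by
  have h1 : ∫ p, F (Function.update p.1 a p.2) ∂((PP (ι := ι) μ).prod μ) = ∫ x, F x ∂(PP μ) := by
    rw [← (update_mp (μ := μ) a).map_eq]
    rw [integral_map measurable_update'.aemeasurable]
    rw [(update_mp (μ := μ) a).map_eq]
    exact hF.meas.aestronglyMeasurable
  rw [← h1, integral_prod _ ((hF.update a).integrable _)]
  rfl

theorem mg_ind (a : ι) (F : (ι → Ω) → ℝ) : Ind a (mg μ a F) := by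
  intro x y
  unfold mg
  simp only [Function.update_idem]

theorem Ind.mg {a b : ι} {F : (ι → Ω) → ℝ} (h : Ind b F) : Ind b (mg μ a F) := by
  by_cases hab : a = b
  · subst hab; exact mg_ind a F
  · intro x y
    unfold RGG.mg
    congr 1
    ext z
    rw [Function.update_comm (Ne.symm hab)]
    exact h _ _

theorem mg_mul_left {a : ι} {K F : (ι → Ω) → ℝ} (hK : Ind a K) (x : ι → Ω) :
    mg μ a (fun x => K x * F x) x = K x * mg μ a F x := by
  unfold mg
  rw [← integral_const_mul]
  congr 1
  ext y
  simp only [hK x y]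

theorem mg_of_ind {a : ι} {K : (ι → Ω) → ℝ} (hK : Ind a K) : mg μ a K = K := by
  ext x
  unfold mg
  simp only [hK x]
  simp

theorem mg_comm {a b : ι} (hab : a ≠ b) {F : (ι → Ω) → ℝ} (hF : BM F) :
    mg μ a (mg μ b F) = mg μ b (mg μ a F) := by
  ext x
  unfold mg
  rw [integral_integral_swap]
  · congr 1
    ext y
    congr 1
    ext z
    rw [Function.update_comm hab]
  · have : BM (fun p : Ω × Ω => F (Function.update (Function.update x a p.1) b p.2)) := by
      apply hF.comp
      apply measurable_pi_lambda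
      intro i
      by_cases hb : i = b
      · subst hb
        simpa using measurable_snd
      · by_cases ha : i = a
        · subst ha
          simpa [Function.update_of_ne hb] using measurable_fst
        · simp only [Function.update_of_ne hb, Function.update_of_ne ha]
          exact measurable_const
    exact this.integrable _

theorem mg_mono {a : ι} {F G : (ι → Ω) → ℝ} (hF : BM F) (hG : BM G) (h : ∀ x, F x ≤ G x)
    (x : ι → Ω) : mg μ a F x ≤ mg μ a G x := by
  unfold mg
  apply integral_mono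
  · exact (hF.comp (measurable_update x)).integrable _
  · exact (hG.comp (measurable_update x)).integrable _
  · intro y; exact h _

theorem abs_mg_le {a : ι} {F : (ι → Ω) → ℝ} (x : ι → Ω) :
    |mg μ a F x| ≤ mg μ a (fun x => |F x|) x :=
  abs_integral_le_integral_abs

theorem mg_nonneg {a : ι} {F : (ι → Ω) → ℝ} (h : ∀ x, 0 ≤ F x) (x : ι → Ω) : 0 ≤ mg μ a F x :=
  integral_nonneg fun _ => h _

theorem Ind.mul {a : ι} {F G : (ι → Ω) → ℝ} (hF : Ind a F) (hG : Ind a G) :
    Ind a (fun x => F x * G x) := fun x y => by simp only [hF x y, hG x y]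

theorem Ind.abs {a : ι} {F : (ι → Ω) → ℝ} (hF : Ind a F) :
    Ind a (fun x => |F x|) := fun x y => by simp only [hF x y]

theorem Ind.prod {ε : Type*} {a : ι} {f : ε → (ι → Ω) → ℝ} (s : Finset ε)
    (h : ∀ e ∈ s, Ind a (f e)) : Ind a (fun x => ∏ e ∈ s, f e x) := fun x y =>
  Finset.prod_congr rfl fun e he => h e he x y

/-- integrate the coordinate `a` in a product -/
theorem integral_mul_mg {a : ι} {K F : (ι → Ω) → ℝ} (hK : BM K) (hKa : Ind a K) (hF : BM F) :
    ∫ x, K x * F x ∂(PP μ) = ∫ x, K x * mg μ a F x ∂(PP μ) := by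
  rw [← integral_mg (hK.mul hF) a]
  congr 1
  ext x
  exact mg_mul_left hKa x

/-- `H` with the coordinate `a` renamed to `b` -/
def ren (a b : ι) (H : (ι → Ω) → ℝ) (x : ι → Ω) : ℝ := H (Function.update x a (x b))

theorem BM.ren {H : (ι → Ω) → ℝ} (hH : BM H) (a b : ι) : BM (ren a b H) := by
  apply hH.comp
  have h : Measurable (fun x : ι → Ω => (x, x b)) := measurable_id.prodMk (measurable_pi_apply b)
  exact measurable_update'.comp h

theorem ren_ind {a b : ι} (hab : a ≠ b) (H : (ι → Ω) → ℝ) : Ind a (ren a b H) := by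
  intro x y
  unfold ren
  rw [Function.update_idem, Function.update_of_ne (Ne.symm hab)]

theorem mg_ren {a b : ι} (hab : a ≠ b) {H : (ι → Ω) → ℝ} (hb : Ind b H) :
    mg μ b (ren a b H) = mg μ a H := by
  ext x
  unfold mg ren
  congr 1
  ext y
  rw [Function.update_self, Function.update_comm (Ne.symm hab)]
  exact hb _ _

/-- the second moment of a marginal: two copies of the coordinate -/
theorem integral_mg_sq {a b : ι} (hab : a ≠ b) {H : (ι → Ω) → ℝ} (hH : BM H) (hb : Ind b H) :
    ∫ x, mg μ a H x ^ 2 ∂(PP μ) = ∫ x, H x * ren a b H x ∂(PP μ) := by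
  have h1 : ∫ x, mg μ a H x ^ 2 ∂(PP μ) = ∫ x, mg μ a H x * ren a b H x ∂(PP μ) := by
    rw [integral_mul_mg (hH.mg a) (hb.mg) (hH.ren a b)]
    congr 1
    ext x
    rw [mg_ren hab hb, sq]
  rw [h1]
  have h2 : ∫ x, mg μ a H x * ren a b H x ∂(PP μ) = ∫ x, ren a b H x * mg μ a H x ∂(PP μ) := by
    congr 1; ext x; ring
  rw [h2, ← integral_mul_mg (hH.ren a b) (ren_ind hab H) hH]
  congr 1; ext x; ring

end marginal

end Pool.Agent.H66.RGG
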