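import Pool.Agent.H66.RGG.Kern

open MeasureTheory Finset

set_option linter.unusedSectionVars false

namespace Pool.Agent.H66.RGG

/-! # Integrating out vertices -/

variable {Ω : Type*} [MeasurableSpace Ω] {μ : Measure Ω} [IsProbabilityMeasure μ]
variable {A : Ω → Ω → ℝ} {p : ℝ}
variable {ι : Type*} [Fintype ι] [DecidableEq ι]

theorem mg_pair {a b : ι} (hab : a ≠ b) (k : Ω → Ω → ℝ) (x : ι → Ω) :
    mg μ b (fun x => k (x a) (x b)) x = ∫ y, k (x a) y ∂μ := by
  unfold mg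
  simp only [Function.update_of_ne hab, Function.update_self]

theorem mg_pair2 {a c b : ι} (hab : a ≠ b) (hcb : c ≠ b) (k l : Ω → Ω → ℝ) (x : ι → Ω) :
    mg μ b (fun x => k (x a) (x b) * l (x c) (x b)) x = ∫ y, k (x a) y * l (x c) y ∂μ := by
  unfold mg
  simp only [Function.update_of_ne hab, Function.update_of_ne hcb, Function.update_self]

theorem int_abs_mg_le {a : ι} {F : (ι → Ω) → ℝ} (hF : BM F) :
    ∫ x, |mg μ a F x| ∂(PP μ) ≤ ∫ x, |F x| ∂(PP μ) := by
  rw [← integral_mg (μ := μ) hF.abs a]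
  apply integral_mono ((hF.mg a).abs.integrable _) ((hF.abs.mg a).integrable _)
  intro x
  exact abs_mg_le x

theorem BM.gbT (hk : Ker μ A p) (a : ι) (T : Finset ι) :
    BM (fun x : ι → Ω => ∏ b ∈ T, gb A p (x a) (x b)) :=
  BM.prod _ fun b _ => BM.pair hk.bmgb a b

/-- integrate out a star of dominating kernels -/
theorem int_gb_prod (hk : Ker μ A p) {a : ι} {B : Finset ι} (haB : a ∉ B) {K : (ι → Ω) → ℝ}
    (hK : BM K) (hKB : ∀ b ∈ B, Ind b K) :
    ∫ x, K x * ∏ b ∈ B, gb A p (x a) (x b) ∂(PP μ) = 2 ^ B.card * ∫ x, K x ∂(PP μ) := by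
  induction B using Finset.induction_on with
  | empty => simp
  | insert b B hb ih =>
    have haB' : a ∉ B := fun h => haB (mem_insert_of_mem h)
    have hab : a ≠ b := fun h => haB (h ▸ mem_insert_self _ _)
    have hKB' : ∀ c ∈ B, Ind c K := fun c hc => hKB c (mem_insert_of_mem hc)
    have hKb : Ind b K := hKB b (mem_insert_self _ _)
    have hpb : Ind b (fun x : ι → Ω => ∏ c ∈ B, gb A p (x a) (x c)) :=
      Ind.prod _ fun c hc => Ind.pair hab (ne_of_mem_of_not_mem hc hb) _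
    have e1 : ∫ x, K x * ∏ c ∈ insert b B, gb A p (x a) (x c) ∂(PP μ) =
        ∫ x, (K x * ∏ c ∈ B, gb A p (x a) (x c)) * gb A p (x a) (x b) ∂(PP μ) := by
      congr 1; ext x; rw [prod_insert hb]; ring
    rw [e1, integral_mul_mg (hK.mul (BM.gbT hk a B)) (hKb.mul hpb) (BM.pair hk.bmgb a b)]
    simp only [mg_pair hab, hk.int_gb]
    rw [integral_mul_const, ih haB' hKB', card_insert_of_notMem hb, pow_succ]
    ring

/-- integrate out a double star of centred kernels -/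
theorem int_gg_prod (hk : Ker μ A p) {y z : ι} {B : Finset ι} (hy : y ∉ B) (hz : z ∉ B)
    {K : (ι → Ω) → ℝ} (hK : BM K) (hKB : ∀ b ∈ B, Ind b K) :
    ∫ x, K x * ∏ b ∈ B, (gg A p (x y) (x b) * gg A p (x z) (x b)) ∂(PP μ) =
      ∫ x, K x * hh μ A p (x y) (x z) ^ B.card ∂(PP μ) := by
  induction B using Finset.induction_on generalizing K with
  | empty => simp
  | insert b B hb ih =>
    have hy' : y ∉ B := fun h => hy (mem_insert_of_mem h)
    have hz' : z ∉ B := fun h => hz (mem_insert_of_mem h)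
    have hyb : y ≠ b := fun h => hy (h ▸ mem_insert_self _ _)
    have hzb : z ≠ b := fun h => hz (h ▸ mem_insert_self _ _)
    have hKb : Ind b K := hKB b (mem_insert_self _ _)
    have hpb : Ind b (fun x : ι → Ω => ∏ c ∈ B, (gg A p (x y) (x c) * gg A p (x z) (x c))) :=
      Ind.prod _ fun c hc => (Ind.pair hyb (ne_of_mem_of_not_mem hc hb) _).mul
        (Ind.pair hzb (ne_of_mem_of_not_mem hc hb) _)
    have hpm : BM (fun x : ι → Ω => ∏ c ∈ B, (gg A p (x y) (x c) * gg A p (x z) (x c))) :=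
      BM.prod _ fun c _ => (BM.pair hk.bmg y c).mul (BM.pair hk.bmg z c)
    have e1 : ∫ x, K x * ∏ c ∈ insert b B, (gg A p (x y) (x c) * gg A p (x z) (x c)) ∂(PP μ) =
        ∫ x, (K x * ∏ c ∈ B, (gg A p (x y) (x c) * gg A p (x z) (x c))) *
          (gg A p (x y) (x b) * gg A p (x z) (x b)) ∂(PP μ) := by
      congr 1; ext x; rw [prod_insert hb]; ring
    rw [e1, integral_mul_mg (hK.mul hpm) (hKb.mul hpb)
      ((BM.pair hk.bmg y b).mul (BM.pair hk.bmg z b))]
    simp only [mg_pair2 hyb hzb]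
    have e2 : ∫ x, (K x * ∏ c ∈ B, (gg A p (x y) (x c) * gg A p (x z) (x c))) *
          ∫ w, gg A p (x y) w * gg A p (x z) w ∂μ ∂(PP μ) =
        ∫ x, (K x * hh μ A p (x y) (x z)) *
          ∏ c ∈ B, (gg A p (x y) (x c) * gg A p (x z) (x c)) ∂(PP μ) := by
      congr 1; ext x; unfold hh; ring
    rw [e2, ih hy' hz' (hK.mul (BM.pair hk.bmh y z)) (fun c hc =>
      (hKB c (mem_insert_of_mem hc)).mul (Ind.pair (ne_of_mem_of_not_mem hc hy').symm
        (ne_of_mem_of_not_mem hc hz').symm _)), card_insert_of_notMem hb]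
    congr 1; ext x; rw [pow_succ]; ring

/-- weighted second moment of a marginal -/
theorem int_weight_sq {a b : ι} (hab : a ≠ b) {H K : (ι → Ω) → ℝ} (hH : BM H) (hb : Ind b H)
    (hK : BM K) (hKa : Ind a K) (hKb : Ind b K) :
    ∫ x, K x * mg μ a H x ^ 2 ∂(PP μ) = ∫ x, K x * (H x * ren a b H x) ∂(PP μ) := by
  have h1 : ∫ x, K x * mg μ a H x ^ 2 ∂(PP μ) =
      ∫ x, (K x * mg μ a H x) * ren a b H x ∂(PP μ) := by
    rw [integral_mul_mg (hK.mul (hH.mg a)) (hKb.mul hb.mg) (hH.ren a b)]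
    congr 1
    ext x
    rw [mg_ren hab hb]; ring
  rw [h1]
  have h2 : ∫ x, (K x * mg μ a H x) * ren a b H x ∂(PP μ) =
      ∫ x, (K x * ren a b H x) * mg μ a H x ∂(PP μ) := by
    congr 1; ext x; ring
  rw [h2, ← integral_mul_mg (hK.mul (hH.ren a b)) (hKa.mul (ren_ind hab H)) hH]
  congr 1; ext x; ring

theorem ren_gT {a z : ι} {T : Finset ι} (ha : a ∉ T) (x : ι → Ω) :
    ren a z (gT A p a T) x = gT A p z T x := by
  unfold ren gT
  apply prod_congr rfl
  intro b hb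
  rw [Function.update_self, Function.update_of_ne (ne_of_mem_of_not_mem hb ha)]

theorem gT_ind {a b : ι} {T : Finset ι} (hab : a ≠ b) (hb : b ∉ T) : Ind b (gT A p (Ω := Ω) a T) :=
  Ind.prod _ fun _ hc => Ind.pair hab (ne_of_mem_of_not_mem hc hb) _

/-- Hilbert-Schmidt bound -/
theorem hs_bound {u : Ω → ℝ} (hu : BM u) {k : Ω → Ω → ℝ} (hk : BM (Function.uncurry k)) :
    ∫ s, ∫ t, u s * u t * k s t ∂μ ∂μ ≤
      (∫ s, u s ^ 2 ∂μ) * (∫ s, ∫ t, k s t ^ 2 ∂μ ∂μ) ^ (1 / 2 : ℝ) := by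
  have hu2 : BM (fun q : Ω × Ω => u q.1 * u q.2) :=
    (hu.comp measurable_fst).mul (hu.comp measurable_snd)
  have h1 := cs (μ.prod μ) hu2 hk
  have e1 : ∫ q : Ω × Ω, u q.1 * u q.2 * Function.uncurry k q ∂(μ.prod μ) =
      ∫ s, ∫ t, u s * u t * k s t ∂μ ∂μ :=
    integral_prod _ ((hu2.mul hk).integrable _)
  have e2 : ∫ q : Ω × Ω, (u q.1 * u q.2) ^ 2 ∂(μ.prod μ) = (∫ s, u s ^ 2 ∂μ) ^ 2 := by
    have : ∀ q : Ω × Ω, (u q.1 * u q.2) ^ 2 = u q.1 ^ 2 * u q.2 ^ 2 := fun q => by ring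
    simp only [this]
    rw [integral_prod_mul (fun s => u s ^ 2) (fun s => u s ^ 2), sq]
  have e3 : ∫ q : Ω × Ω, Function.uncurry k q ^ 2 ∂(μ.prod μ) = ∫ s, ∫ t, k s t ^ 2 ∂μ ∂μ :=
    integral_prod _ ((hk.pow 2).integrable _)
  rw [e1, e2, e3] at h1
  refine h1.trans (le_of_eq ?_)
  congr 1
  rw [← Real.sqrt_eq_rpow, Real.sqrt_sq]
  exact integral_nonneg fun s => sq_nonneg _

/-- the two copies form of the Hilbert-Schmidt bound -/
theorem int_copy_le {a z : ι} (haz : a ≠ z) {F : (ι → Ω) → ℝ} (hF : BM F) (hFz : Ind z F)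
    {k : Ω → Ω → ℝ} (hk : BM (Function.uncurry k)) :
    ∫ x, F x * ren a z F x * k (x a) (x z) ∂(PP μ) ≤
      (∫ x, F x ^ 2 ∂(PP μ)) * (∫ s, ∫ t, k s t ^ 2 ∂μ ∂μ) ^ (1 / 2 : ℝ) := by
  have hG : BM (fun x : ι → Ω => F x * ren a z F x * k (x a) (x z)) :=
    (hF.mul (hF.ren a z)).mul (BM.pair hk a z)
  rw [← integral_mg hG z, ← integral_mg (hG.mg z) a, ← integral_mg (hF.pow 2) a,
    ← integral_mul_const]
  apply integral_mono (((hG.mg z).mg a).integrable _) ((((hF.pow 2).mg a).integrable _).mul_const _)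
  intro x
  show mg μ a (mg μ z _) x ≤ mg μ a (fun x => F x ^ 2) x * _
  have hu : BM (fun s => F (Function.update x a s)) := hF.comp (measurable_update x)
  have h1 := hs_bound (μ := μ) hu hk
  refine le_trans (le_of_eq ?_) h1
  unfold mg ren
  congr 1
  ext s
  congr 1
  ext t
  beta_reduce
  rw [hFz]
  congr 1
  · congr 1
    rw [Function.update_self, Function.update_comm haz.symm, Function.update_idem, hFz]
  · rw [Function.update_of_ne haz, Function.update_self, Function.update_self]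

theorem int_pair {a z : ι} (haz : a ≠ z) {k : Ω → Ω → ℝ} (hk : BM (Function.uncurry k)) :
    ∫ x : ι → Ω, k (x a) (x z) ∂(PP μ) = ∫ s, ∫ t, k s t ∂μ ∂μ := by
  have hG : BM (fun x : ι → Ω => k (x a) (x z)) := BM.pair hk a z
  rw [← integral_mg hG z, ← integral_mg (hG.mg z) a]
  have : ∀ x : ι → Ω, mg μ a (mg μ z fun x => k (x a) (x z)) x = ∫ s, ∫ t, k s t ∂μ ∂μ := by
    intro x
    unfold mg
    congr 1
    ext s
    congr 1
    ext t
    beta_reduce
    rw [Function.update_of_ne haz, Function.update_self, Function.update_self]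
  simp only [this]
  simp

/-- second moment of the transform `F^{[a,T]}` -/
theorem sq_bound (hk : Ker μ A p) {a z : ι} {T : Finset ι} (haz : a ≠ z) (haT : a ∉ T)
    (hzT : z ∉ T) {F : (ι → Ω) → ℝ} (hF : BM F) (hFz : Ind z F) (hFT : ∀ b ∈ T, Ind b F) :
    ∫ x, mg μ a (fun x => F x * gT A p a T x) x ^ 2 ∂(PP μ) ≤
      (∫ x, F x ^ 2 ∂(PP μ)) *
        (∫ s, ∫ t, |hh μ A p s t| ^ (2 * T.card) ∂μ ∂μ) ^ (1 / 2 : ℝ) := by
  have hH : BM (fun x => F x * gT A p a T x) := hF.mul (BM.gT hk a T)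
  rw [integral_mg_sq haz hH (hFz.mul (gT_ind haz hzT))]
  have e1 : ∫ x, F x * gT A p a T x * ren a z (fun x => F x * gT A p a T x) x ∂(PP μ) =
      ∫ x, (F x * ren a z F x) *
        ∏ b ∈ T, (gg A p (x a) (x b) * gg A p (x z) (x b)) ∂(PP μ) := by
    congr 1; ext x
    have : ren a z (fun x => F x * gT A p a T x) x = ren a z F x * gT A p z T x := by
      rw [← ren_gT haT]; rfl
    rw [this, prod_mul_distrib]
    unfold gT; ring
  rw [e1, int_gg_prod hk haT hzT (hF.mul (hF.ren a z))]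
  · have h1 := int_copy_le (μ := μ) haz hF hFz (k := fun s t => hh μ A p s t ^ T.card)
      (hk.bmh.pow T.card)
    refine h1.trans (le_of_eq ?_)
    congr 3
    ext s
    congr 1
    ext t
    rw [← pow_mul, mul_comm T.card 2, pow_mul, pow_mul, sq_abs]
  · intro b hb
    apply (hFT b hb).mul
    intro x w
    unfold ren
    have hab : a ≠ b := fun h => haT (h ▸ hb)
    have hzb : z ≠ b := fun h => hzT (h ▸ hb)
    rw [Function.update_of_ne hzb, Function.update_comm hab.symm, hFT b hb]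

/-- second moment of the kernel `Z` -/
theorem Z_sq (hk : Ker μ A p) {y z : ι} {C : Finset ι} (hyz : y ≠ z) (hy : y ∉ C) (hz : z ∉ C) :
    ∫ x : ι → Ω, mg μ y (gT A p y C) x ^ 2 ∂(PP μ) =
      ∫ s, ∫ t, hh μ A p s t ^ C.card ∂μ ∂μ := by
  rw [integral_mg_sq hyz (BM.gT hk y C) (gT_ind hyz hz)]
  have e1 : ∫ x : ι → Ω, gT A p y C x * ren y z (gT A p y C) x ∂(PP μ) =
      ∫ x : ι → Ω, (fun _ => (1 : ℝ)) x *
        ∏ b ∈ C, (gg A p (x y) (x b) * gg A p (x z) (x b)) ∂(PP μ) := by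
    congr 1; ext x
    rw [ren_gT hy, prod_mul_distrib]
    unfold gT; ring
  rw [e1, int_gg_prod hk hy hz (BM.const 1) (fun b _ => Ind.const b 1)]
  simp only [one_mul]
  exact int_pair hyz (k := fun s t => hh μ A p s t ^ C.card) (hk.bmh.pow C.card)

/-- the key identity -/
theorem key (hk : Ker μ A p) {a a1 : ι} {T' C : Finset ι} (ha1 : a1 ∉ T')
    (haa : a ≠ a1) (haC : a ∉ C) {F : (ι → Ω) → ℝ} (hF : BM F)
    (hFa : Ind a1 F) (x : ι → Ω) :
    mg μ a1 (fun x => mg μ a (fun x => F x * gT A p a (insert a1 T') x) x * gT A p a1 C x) x =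
      mg μ a (fun x => F x * gT A p a T' x * mg μ a1 (gT A p a1 (insert a C)) x) x := by
  have hB1 : BM (fun x => F x * gT A p a (insert a1 T') x * gT A p a1 C x) :=
    (hF.mul (BM.gT hk a _)).mul (BM.gT hk a1 C)
  have e1 : (fun x => mg μ a (fun x => F x * gT A p a (insert a1 T') x) x * gT A p a1 C x) =
      mg μ a (fun x => F x * gT A p a (insert a1 T') x * gT A p a1 C x) := by
    ext x
    have h : Ind a (gT A p (Ω := Ω) a1 C) := gT_ind (Ne.symm haa) haC
    have h2 := mg_mul_left (μ := μ) (K := gT A p a1 C)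
      (F := fun x => F x * gT A p a (insert a1 T') x) h x
    rw [mul_comm, ← h2]
    congr 1
    ext x; ring
  rw [e1, mg_comm (Ne.symm haa) hB1]
  congr 1
  ext x
  have h3 : Ind a1 (fun x => F x * gT A p a T' x) := hFa.mul (gT_ind haa ha1)
  rw [← mg_mul_left h3]
  congr 1
  ext x
  unfold gT
  rw [prod_insert ha1, prod_insert haC, hk.g_symm (x a1) (x a)]
  ring

end Pool.Agent.H66.RGG
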