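import Pool.Agent.H66.RGG.Star

open MeasureTheory Finset

set_option linter.unusedSectionVars false

namespace Pool.Agent.H66.RGG

/-! # The kernel -/

section kernel

variable {Ω : Type*} [MeasurableSpace Ω]

/-- a symmetric measurable kernel with values in `[0,1]` and constant degree `p` -/
structure Ker (μ : Measure Ω) (A : Ω → Ω → ℝ) (p : ℝ) : Prop where
  meas : Measurable (Function.uncurry A)
  symm : ∀ x y, A x y = A y x
  nonneg : ∀ x y, 0 ≤ A x y
  le_one : ∀ x y, A x y ≤ 1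
  p0 : 0 < p
  p1 : p ≤ 1
  marg : ∀ x, ∫ y, A x y ∂μ = p

/-- the centred normalised kernel -/
noncomputable def gg (A : Ω → Ω → ℝ) (p : ℝ) (x y : Ω) : ℝ := A x y / p - 1

/-- the dominating kernel -/
noncomputable def gb (A : Ω → Ω → ℝ) (p : ℝ) (x y : Ω) : ℝ := A x y / p + 1

/-- the pair correlation -/
noncomputable def hh (μ : Measure Ω) (A : Ω → Ω → ℝ) (p : ℝ) (x y : Ω) : ℝ :=
  ∫ z, gg A p x z * gg A p y z ∂μ

variable {μ : Measure Ω} [IsProbabilityMeasure μ] {A : Ω → Ω → ℝ} {p : ℝ}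

namespace Ker

theorem bmA (hk : Ker μ A p) : BM (Function.uncurry A) :=
  ⟨hk.meas, 1, fun q => by
    rw [Function.uncurry, abs_of_nonneg (hk.nonneg _ _)]; exact hk.le_one _ _⟩

theorem bmg (hk : Ker μ A p) : BM (Function.uncurry (gg A p)) := by
  have := (hk.bmA.mul (BM.const (p⁻¹))).sub (BM.const 1)
  exact this

theorem bmgb (hk : Ker μ A p) : BM (Function.uncurry (gb A p)) := by
  have := (hk.bmA.mul (BM.const (p⁻¹))).add (BM.const 1)
  exact this

theorem bmh (hk : Ker μ A p) : BM (Function.uncurry (hh μ A p)) := by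
  have h1 : BM (fun q : (Ω × Ω) × Ω => gg A p q.1.1 q.2 * gg A p q.1.2 q.2) :=
    (hk.bmg.comp ((measurable_fst.comp measurable_fst).prodMk measurable_snd)).mul
      (hk.bmg.comp ((measurable_snd.comp measurable_fst).prodMk measurable_snd))
  obtain ⟨C, hC⟩ := h1.bdd
  refine ⟨(h1.meas.stronglyMeasurable.integral_prod_right' (ν := μ)).measurable, C, fun q => ?_⟩
  have h2 : |hh μ A p q.1 q.2| ≤ ∫ z, |gg A p q.1 z * gg A p q.2 z| ∂μ :=
    abs_integral_le_integral_abs
  refine h2.trans ?_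
  have h3 : ∫ z, |gg A p q.1 z * gg A p q.2 z| ∂μ ≤ ∫ _, C ∂μ := by
    apply integral_mono_of_nonneg
    · exact Filter.Eventually.of_forall fun y => abs_nonneg _
    · exact integrable_const _
    · exact Filter.Eventually.of_forall fun y => hC (q, y)
  simpa using h3

theorem g_symm (hk : Ker μ A p) (x y : Ω) : gg A p x y = gg A p y x := by
  unfold gg; rw [hk.symm]

theorem gb_symm (hk : Ker μ A p) (x y : Ω) : gb A p x y = gb A p y x := by
  unfold gb; rw [hk.symm]

theorem h_symm (x y : Ω) : hh μ A p x y = hh μ A p y x := by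
  unfold hh; congr 1; ext z; ring

theorem A_eq (hk : Ker μ A p) (x y : Ω) : A x y = p * (1 + gg A p x y) := by
  unfold gg; have := hk.p0; field_simp; ring

theorem bmg1 (hk : Ker μ A p) (x : Ω) : BM (gg A p x) :=
  hk.bmg.comp (measurable_const.prodMk measurable_id)

theorem bmgb1 (hk : Ker μ A p) (x : Ω) : BM (gb A p x) :=
  hk.bmgb.comp (measurable_const.prodMk measurable_id)

theorem bmh1 (hk : Ker μ A p) (x : Ω) : BM (hh μ A p x) :=
  hk.bmh.comp (measurable_const.prodMk measurable_id)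

theorem bmA1 (hk : Ker μ A p) (x : Ω) : BM (A x) :=
  hk.bmA.comp (measurable_const.prodMk measurable_id)

theorem int_g (hk : Ker μ A p) (x : Ω) : ∫ y, gg A p x y ∂μ = 0 := by
  unfold gg
  rw [integral_sub _ (integrable_const _), integral_div, hk.marg]
  · have := hk.p0; simp [this.ne']
  · exact ((hk.bmA1 x).integrable μ).div_const p

theorem int_gb (hk : Ker μ A p) (x : Ω) : ∫ y, gb A p x y ∂μ = 2 := by
  unfold gb
  rw [integral_add _ (integrable_const _), integral_div, hk.marg]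
  · have := hk.p0; simp [this.ne']; norm_num
  · exact ((hk.bmA1 x).integrable μ).div_const p

theorem gb_one (hk : Ker μ A p) (x y : Ω) : 1 ≤ gb A p x y := by
  have := hk.p0
  have := div_nonneg (hk.nonneg x y) this.le
  unfold gb; linarith

theorem gb_nonneg (hk : Ker μ A p) (x y : Ω) : 0 ≤ gb A p x y := by
  linarith [hk.gb_one x y]

theorem gb_le (hk : Ker μ A p) (x y : Ω) : gb A p x y ≤ 2 / p := by
  have h0 := hk.p0
  have h1 := div_le_div_of_nonneg_right (hk.le_one x y) h0.le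
  have h2 : 1 ≤ 1 / p := by rw [le_div_iff₀ h0]; linarith [hk.p1]
  have h3 : 2 / p = 1 / p + 1 / p := by ring
  unfold gb; linarith

theorem abs_g_le_gb (hk : Ker μ A p) (x y : Ω) : |gg A p x y| ≤ gb A p x y := by
  have := hk.p0
  have := div_nonneg (hk.nonneg x y) this.le
  unfold gb gg
  rw [abs_le]
  constructor <;> linarith

theorem abs_g_le (hk : Ker μ A p) (x y : Ω) : |gg A p x y| ≤ 1 / p := by
  have h0 := hk.p0
  have h1 := div_le_div_of_nonneg_right (hk.le_one x y) h0.le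
  have h2 : 1 ≤ 1 / p := by rw [le_div_iff₀ h0]; linarith [hk.p1]
  have h3 := div_nonneg (hk.nonneg x y) h0.le
  unfold gg
  rw [abs_le]
  constructor <;> linarith

theorem abs_h_le (hk : Ker μ A p) (x y : Ω) : |hh μ A p x y| ≤ 2 / p := by
  have h1 : |hh μ A p x y| ≤ ∫ z, |gg A p x z * gg A p y z| ∂μ := abs_integral_le_integral_abs
  refine h1.trans ?_
  have h2 : ∫ z, |gg A p x z * gg A p y z| ∂μ ≤ ∫ z, 1 / p * gb A p y z ∂μ := by
    apply integral_mono (((hk.bmg1 x).mul (hk.bmg1 y)).abs.integrable μ)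
      (((hk.bmgb1 y).integrable μ).const_mul _)
    intro z
    show |gg A p x z * gg A p y z| ≤ 1 / p * gb A p y z
    rw [abs_mul]
    exact mul_le_mul (hk.abs_g_le _ _) (hk.abs_g_le_gb _ _) (abs_nonneg _)
      (div_nonneg zero_le_one hk.p0.le)
  refine h2.trans (le_of_eq ?_)
  rw [integral_const_mul, hk.int_gb]; ring

/-- the dominating pair correlation -/
theorem int_gb_gb (hk : Ker μ A p) (x y : Ω) :
    ∫ z, gb A p x z * gb A p y z ∂μ = hh μ A p x y + 4 := by
  have e : ∀ z, gb A p x z * gb A p y z = gg A p x z * gg A p y z +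
      (2 * gg A p x z + (2 * gg A p y z + 4)) := by
    intro z; unfold gb gg; ring
  simp only [e]
  rw [integral_add, integral_add, integral_add, integral_const_mul, integral_const_mul,
    hk.int_g, hk.int_g]
  · simp [hh]
  · exact ((hk.bmg1 y).integrable μ).const_mul _
  · exact integrable_const _
  · exact ((hk.bmg1 x).integrable μ).const_mul _
  · exact (((hk.bmg1 y).integrable μ).const_mul _).add (integrable_const _)
  · exact ((hk.bmg1 x).mul (hk.bmg1 y)).integrable μ
  · exact (((hk.bmg1 x).integrable μ).const_mul _).add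
      ((((hk.bmg1 y).integrable μ).const_mul _).add (integrable_const _))

theorem int_gb_sq_le (hk : Ker μ A p) (x : Ω) : ∫ z, gb A p x z ^ 2 ∂μ ≤ 4 / p := by
  have h2 : ∫ z, gb A p x z ^ 2 ∂μ ≤ ∫ z, 2 / p * gb A p x z ∂μ := by
    apply integral_mono (((hk.bmgb1 x).pow 2).integrable μ)
      (((hk.bmgb1 x).integrable μ).const_mul _)
    intro z
    show gb A p x z ^ 2 ≤ 2 / p * gb A p x z
    rw [sq]
    exact mul_le_mul_of_nonneg_right (hk.gb_le _ _) (hk.gb_nonneg _ _)
  refine h2.trans (le_of_eq ?_)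
  rw [integral_const_mul, hk.int_gb]; ring

end Ker

end kernel

section vertices

variable {Ω : Type*} [MeasurableSpace Ω] {μ : Measure Ω} [IsProbabilityMeasure μ]
variable {A : Ω → Ω → ℝ} {p : ℝ}
variable {ι : Type*} [Fintype ι] [DecidableEq ι]

/-- a symmetric kernel as a function on edges -/
def ae (k : Ω → Ω → ℝ) (hs : ∀ x y, k x y = k y x) (e : Sym2 ι) (x : ι → Ω) : ℝ :=
  Sym2.lift ⟨fun a b => k (x a) (x b), fun _ _ => hs _ _⟩ e

@[simp] theorem ae_mk (k : Ω → Ω → ℝ) (hs : ∀ x y, k x y = k y x) (a b : ι) (x : ι → Ω) :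
    ae k hs s(a, b) x = k (x a) (x b) := rfl

theorem BM.ae {k : Ω → Ω → ℝ} (hs : ∀ x y, k x y = k y x) (hk : BM (Function.uncurry k))
    (e : Sym2 ι) : BM (ae k hs e) := by
  induction e using Sym2.ind with
  | _ a b => exact BM.pair hk a b

/-- the edges with both ends in `V` -/
def edg (V : Finset ι) : Finset (Sym2 ι) := V.sym2.filter fun e => ¬ e.IsDiag

theorem mem_edg {V : Finset ι} {a b : ι} : s(a, b) ∈ edg V ↔ (a ∈ V ∧ b ∈ V) ∧ a ≠ b := by
  unfold edg
  rw [mem_filter, Finset.mk_mem_sym2_iff, Sym2.mk_isDiag_iff]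

theorem edg_empty : edg (∅ : Finset ι) = ∅ := by
  unfold edg; simp

theorem edg_insert {V : Finset ι} {a : ι} (ha : a ∉ V) :
    edg (insert a V) = edg V ∪ V.image fun b => s(a, b) := by
  ext e
  induction e using Sym2.ind with
  | _ x y =>
    rw [mem_union, mem_edg, mem_edg, mem_image]
    constructor
    · rintro ⟨⟨hx, hy⟩, hne⟩
      rw [mem_insert] at hx hy
      rcases hx with rfl | hx
      · rcases hy with rfl | hy
        · exact absurd rfl hne
        · exact Or.inr ⟨y, hy, rfl⟩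
      · rcases hy with rfl | hy
        · exact Or.inr ⟨x, hx, Sym2.eq_swap⟩
        · exact Or.inl ⟨⟨hx, hy⟩, hne⟩
    · rintro (⟨⟨hx, hy⟩, hne⟩ | ⟨b, hb, hbe⟩)
      · exact ⟨⟨mem_insert_of_mem hx, mem_insert_of_mem hy⟩, hne⟩
      · rw [Sym2.eq_iff] at hbe
        rcases hbe with ⟨rfl, rfl⟩ | ⟨rfl, rfl⟩
        · exact ⟨⟨mem_insert_self _ _, mem_insert_of_mem hb⟩, fun h => ha (h ▸ hb)⟩
        · exact ⟨⟨mem_insert_of_mem hb, mem_insert_self _ _⟩, fun h => ha (h ▸ hb)⟩

theorem ae_ind {k : Ω → Ω → ℝ} (hs : ∀ x y, k x y = k y x) {V : Finset ι} {a : ι} (ha : a ∉ V)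
    {e : Sym2 ι} (he : e ∈ edg V) : Ind a (ae k hs e) := by
  induction e using Sym2.ind with
  | _ x y =>
    rw [mem_edg] at he
    have hx : x ≠ a := by rintro rfl; exact ha he.1.1
    have hy : y ≠ a := by rintro rfl; exact ha he.1.2
    exact Ind.pair hx hy k

/-- the norm `N_V` -/
noncomputable def NV (hk : Ker μ A p) (V : Finset ι) (F : (ι → Ω) → ℝ) : ℝ :=
  NN (PP μ) (ae A hk.symm) (edg V) F

/-- the distance `D_V` -/
noncomputable def DV (hk : Ker μ A p) (V : Finset ι) : ℝ :=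
  DD (PP (ι := ι) μ) (ae A hk.symm) p (edg V)

/-- the product of the `g(x_a, x_b)`, `b ∈ T` -/
noncomputable def gT (A : Ω → Ω → ℝ) (p : ℝ) (a : ι) (T : Finset ι) (x : ι → Ω) : ℝ :=
  ∏ b ∈ T, gg A p (x a) (x b)

theorem BM.gT (hk : Ker μ A p) (a : ι) (T : Finset ι) : BM (gT A p a T) :=
  BM.prod _ fun b _ => BM.pair hk.bmg a b

theorem NV_nonneg (hk : Ker μ A p) (V : Finset ι) (F : (ι → Ω) → ℝ) : 0 ≤ NV hk V F :=
  NN_nonneg _ _

theorem NV_le (hk : Ker μ A p) (V : Finset ι) {F : (ι → Ω) → ℝ} (hF : BM F) :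
    NV hk V F ≤ ∫ x, |F x| ∂(PP μ) := by
  apply NN_le _ _ _ _ hF
  · exact fun e => BM.ae _ hk.bmA e
  · intro e x
    induction e using Sym2.ind with
    | _ a b => exact hk.nonneg _ _
  · intro e x
    induction e using Sym2.ind with
    | _ a b => exact hk.le_one _ _

theorem injOn_mk (a : ι) : Function.Injective fun b : ι => s(a, b) := by
  intro b c h
  have h' : s(a, b) = s(a, c) := h
  rw [Sym2.eq_iff] at h'
  rcases h' with ⟨-, h⟩ | ⟨h1, h2⟩
  · exact h
  · exact h2.trans h1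

theorem NV_rec (hk : Ker μ A p) {V : Finset ι} {a : ι} (ha : a ∉ V) {L : Finset ι} (hL : L ⊆ V)
    {F : (ι → Ω) → ℝ} (hF : BM F) :
    NV hk (insert a V) F ≤ ∑ C ∈ L.powerset, ∑ T ∈ (V \ L).powerset,
      (2 * p) ^ C.card * ((2 * p) ^ T.card *
        NV hk V (mg μ a fun x => F x * gT A p a C x * gT A p a T x)) := by
  have hA : ∀ e : Sym2 ι, BM (ae A hk.symm e) := fun e => BM.ae _ hk.bmA e
  have hg : ∀ e : Sym2 ι, BM (ae (gg A p) hk.g_symm e) := fun e => BM.ae _ hk.bmg e
  have hAg : ∀ (e : Sym2 ι) x, ae A hk.symm e x = p * (1 + ae (gg A p) hk.g_symm e x) := by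
    intro e x
    induction e using Sym2.ind with
    | _ a b => exact hk.A_eq _ _
  have hp := hk.p0
  unfold NV
  have e1 : edg (insert a V) = (edg V ∪ (V \ L).image fun b => s(a, b)) ∪
      L.image fun b => s(a, b) := by
    rw [edg_insert ha, union_assoc, ← image_union, sdiff_union_of_subset hL]
  rw [e1]
  have h1 := NN_star (P := PP μ) hp.le hk.p1 hA hg hAg (fun b => s(a, b)) (injOn_mk a)
    (edg V ∪ (V \ L).image fun b => s(a, b)) L (by
      intro b hb h
      rw [mem_union, mem_edg, mem_image] at h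
      rcases h with h | ⟨c, hc, h⟩
      · exact ha h.1.1
      · have := injOn_mk a h
        subst this
        exact (mem_sdiff.1 hc).2 hb) hF
  refine h1.trans ?_
  apply sum_le_sum
  intro C hC
  rw [← mul_sum]
  apply mul_le_mul_of_nonneg_left _ (pow_nonneg (by linarith) _)
  have h2 := NN_star (P := PP μ) hp.le hk.p1 hA hg hAg (fun b => s(a, b)) (injOn_mk a)
    (edg V) (V \ L) (by
      intro b hb h
      rw [mem_edg] at h
      exact ha h.1.1) (hF.mul (BM.gT hk a C))
  refine h2.trans (le_of_eq ?_)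
  apply sum_congr rfl
  intro T hT
  congr 1
  exact NN_mg hA (fun e he => ae_ind _ ha he) ((hF.mul (BM.gT hk a C)).mul (BM.gT hk a T))

theorem DV_rec (hk : Ker μ A p) {V : Finset ι} {a : ι} (ha : a ∉ V) :
    DV hk (insert a V) ≤ DV hk V + ∑ T ∈ V.powerset with T.Nonempty,
      (2 * p) ^ T.card * NV hk V (mg μ a fun x => gT A p a T x) := by
  have hA : ∀ e : Sym2 ι, BM (ae A hk.symm e) := fun e => BM.ae _ hk.bmA e
  have hg : ∀ e : Sym2 ι, BM (ae (gg A p) hk.g_symm e) := fun e => BM.ae _ hk.bmg e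
  have hAg : ∀ (e : Sym2 ι) x, ae A hk.symm e x = p * (1 + ae (gg A p) hk.g_symm e x) := by
    intro e x
    induction e using Sym2.ind with
    | _ a b => exact hk.A_eq _ _
  have hp := hk.p0
  unfold DV
  rw [edg_insert ha]
  have h1 := DD_star (P := PP μ) hp.le hk.p1 hA hg hAg (fun b => s(a, b)) (injOn_mk a)
    (edg V) V (by
      intro b hb h
      rw [mem_edg] at h
      exact ha h.1.1)
  refine h1.trans (le_of_eq ?_)
  congr 1
  apply sum_congr rfl
  intro T hT
  congr 1
  unfold NV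
  rw [← NN_mg hA (fun e he => ae_ind _ ha he) (BM.gT hk a T)]
  rfl

end vertices

end Pool.Agent.H66.RGG
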