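import Pool.Agent.H66.RGG.Terms2

open MeasureTheory Finset

set_option linter.unusedSectionVars false

namespace Pool.Agent.H66.RGG

/-! # The main induction -/

variable {Ω : Type*} [MeasurableSpace Ω] {μ : Measure Ω} [IsProbabilityMeasure μ]
variable {A : Ω → Ω → ℝ} {p η : ℝ} {R : ℕ}
variable {ι : Type*} [Fintype ι] [DecidableEq ι]

/-- the sum of the main proposition -/
noncomputable def SS (hk : Ker μ A p) (R : ℕ) (V L : Finset ι) (a : ι) (F : (ι → Ω) → ℝ) : ℝ :=
  ∑ T ∈ (V \ L).powerset with (1 ≤ T.card ∧ T.card < R),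
    (2 * p) ^ T.card * NV hk V (mg μ a fun x => F x * gT A p a T x)

theorem sum_two_pow (L : Finset ι) : ∑ C ∈ L.powerset, (2 : ℝ) ^ C.card = 3 ^ L.card := by
  have h := Finset.sum_pow_mul_eq_add_pow (2 : ℝ) 1 L
  simp only [one_pow, mul_one] at h
  rw [h]; norm_num

theorem n2_F1 (hk : Ker μ A p) (hM : KB μ A p η R) {a z : ι} {T : Finset ι} (haz : a ≠ z)
    (haT : a ∉ T) (hzT : z ∉ T) (h1 : 1 ≤ T.card) (hR : T.card < R)
    {F : (ι → Ω) → ℝ} (hF : BM F) (hFz : Ind z F) (hFT : ∀ b ∈ T, Ind b F) :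
    n2 (PP μ) (mg μ a fun x => F x * gT A p a T x) ≤ η * n2 (PP μ) F := by
  have h := sq_bound hk haz haT hzT hF hFz hFT
  have h2 := hM.m2 (2 * T.card) (by omega) (by omega)
  unfold n2
  rw [Real.sqrt_le_left (mul_nonneg hM.eta0 (Real.sqrt_nonneg _)), mul_pow,
    Real.sq_sqrt (integral_nonneg fun _ => sq_nonneg _)]
  refine h.trans ?_
  rw [mul_comm]
  apply mul_le_mul_of_nonneg_right _ (integral_nonneg fun _ => sq_nonneg _)
  rw [← Real.sqrt_eq_rpow]
  refine (Real.sqrt_le_sqrt h2).trans (le_of_eq ?_)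
  rw [show η ^ 4 = (η ^ 2) ^ 2 by ring, Real.sqrt_sq (sq_nonneg _)]

/-- the bound for one set `T = insert a1 T'` -/
theorem perT (hk : Ker μ A p) (hM : KB μ A p η R) {M τ Ψ : ℝ} {z : ι}
    (hS : ∀ B : Finset ι, z ∉ B → ∑ T ∈ B.powerset, (32 * p) ^ T.card ≤ M)
    (hτ : ∀ B : Finset ι, z ∉ B → ∑ T ∈ B.powerset with R ≤ T.card, (4 * p) ^ T.card ≤ τ)
    (hΨ : 0 ≤ Ψ)
    {V' L T' : Finset ι} {a a1 : ι} (ha1V : a1 ∉ V') (haV : a ∉ insert a1 V') (hL : L ⊆ V')
    (hT' : T' ⊆ V' \ L) (hz : z ∉ insert a1 V') (hza : z ≠ a) (hTR : T'.card + 1 < R)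
    {F : (ι → Ω) → ℝ} (hF : BM F) (hFi : ∀ i, i ∉ insert a L → Ind i F)
    (IH : ∀ F1 : (ι → Ω) → ℝ, BM F1 → (∀ i, i ∉ insert a1 (L ∪ T') → Ind i F1) →
      SS hk R V' (L ∪ T') a1 F1 ≤ Ψ * 8 ^ (L ∪ T').card * n2 (PP μ) F1) :
    NV hk (insert a1 V') (mg μ a fun x => F x * gT A p a (insert a1 T') x) ≤
      8 ^ L.card * 8 ^ T'.card * (Ψ * η + (τ + 5 * M * p * η)) * n2 (PP μ) F := by
  have hp := hk.p0
  have hη := hM.eta0
  have hη1 := hM.eta1
  rw [mem_insert, not_or] at haV hz
  obtain ⟨haa, haV'⟩ := haV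
  obtain ⟨hza1, hzV'⟩ := hz
  have ha1L : a1 ∉ L := fun h => ha1V (hL h)
  have hT'V : T' ⊆ V' := fun i hi => (mem_sdiff.1 (hT' hi)).1
  have hT'L : Disjoint L T' := by
    rw [Finset.disjoint_right]
    exact fun i hi => (mem_sdiff.1 (hT' hi)).2
  have ha1T' : a1 ∉ T' := fun h => ha1V (hT'V h)
  have haL : a ∉ L := fun h => haV' (hL h)
  have haT' : a ∉ T' := fun h => haV' (hT'V h)
  have hzT' : z ∉ T' := fun h => hzV' (hT'V h)
  have hzL : z ∉ L := fun h => hzV' (hL h)
  have hFz : Ind z F := hFi z (by rw [mem_insert, not_or]; exact ⟨hza, hzL⟩)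
  have hFa1 : Ind a1 F := hFi a1 (by rw [mem_insert, not_or]; exact ⟨fun h => haa h.symm, ha1L⟩)
  have hFT' : ∀ c ∈ T', Ind c F := fun c hc => hFi c (by
    rw [mem_insert, not_or]
    exact ⟨ne_of_mem_of_not_mem hc haT', Finset.disjoint_right.1 hT'L hc⟩)
  set F1 : (ι → Ω) → ℝ := mg μ a fun x => F x * gT A p a (insert a1 T') x with hF1
  have hB : BM (fun x => F x * gT A p a (insert a1 T') x) := hF.mul (BM.gT hk a _)
  have hF1m : BM F1 := hB.mg a
  have hF1i : ∀ i, i ∉ insert a1 (L ∪ T') → Ind i F1 := by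
    intro i hi
    rw [mem_insert, mem_union, not_or, not_or] at hi
    obtain ⟨h1, h2, h3⟩ := hi
    by_cases hia : i = a
    · rw [hia]; exact mg_ind a _
    · apply Ind.mg
      apply (hFi i (by rw [mem_insert, not_or]; exact ⟨hia, h2⟩)).mul
      apply gT_ind (fun h => hia h.symm)
      rw [mem_insert, not_or]
      exact ⟨h1, h3⟩
  set L1 := L ∪ T' with hL1
  have hL1V : L1 ⊆ V' := union_subset hL hT'V
  have hzL1 : z ∉ L1 := fun h => hzV' (hL1V h)
  have hcard : L1.card = L.card + T'.card := card_union_of_disjoint hT'L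
  have haT : a ∉ insert a1 T' := by rw [mem_insert, not_or]; exact ⟨haa, haT'⟩
  have hzT : z ∉ insert a1 T' := by rw [mem_insert, not_or]; exact ⟨hza1, hzT'⟩
  have hcT : (insert a1 T').card = T'.card + 1 := card_insert_of_notMem ha1T'
  have hn2 : n2 (PP μ) F1 ≤ η * n2 (PP μ) F := by
    apply n2_F1 hk hM hza.symm haT hzT (by omega) (by omega) hF hFz
    intro b hb
    rw [mem_insert] at hb
    rcases hb with rfl | hb
    · exact hFa1
    · exact hFT' b hb
  have hN := n2_nonneg (P := PP μ) F
  have hN1 := n2_nonneg (P := PP μ) F1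
  set N := n2 (PP μ) F with hNdef
  set N1 := n2 (PP μ) F1 with hN1def
  have hM1 : 1 ≤ M := by
    have := hS ∅ (notMem_empty _)
    simpa using this
  have hτ0 : 0 ≤ τ := by
    refine le_trans ?_ (hτ ∅ (notMem_empty _))
    exact sum_nonneg fun _ _ => by positivity
  refine (NV_rec hk ha1V hL1V hF1m).trans ?_
  -- pointwise bound
  have hpt : ∀ C ∈ L1.powerset, ∀ T2 ∈ (V' \ L1).powerset,
      (2 * p) ^ C.card * ((2 * p) ^ T2.card *
        NV hk V' (mg μ a1 fun x => F1 x * gT A p a1 C x * gT A p a1 T2 x)) ≤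
      (if C = ∅ then (if 1 ≤ T2.card ∧ T2.card < R then (2 * p) ^ T2.card *
        NV hk V' (mg μ a1 fun x => F1 x * gT A p a1 T2 x) else 0) else 0) +
      (2 ^ C.card * (if R ≤ T2.card then (4 * p) ^ T2.card else 0) * N1 +
        2 ^ C.card * (4 * p) ^ T2.card * (4 * p * N1 + p * 2 ^ T'.card * η * N)) := by
    intro C hC T2 hT2
    rw [mem_powerset] at hC hT2
    have ha1C : a1 ∉ C := fun h => ha1V (hL1V (hC h))
    have haC : a ∉ C := fun h => haV' (hL1V (hC h))
    have hT2V : T2 ⊆ V' := fun i hi => (mem_sdiff.1 (hT2 hi)).1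
    have hT2L1 : ∀ i ∈ T2, i ∉ L1 := fun i hi => (mem_sdiff.1 (hT2 hi)).2
    have ha1T2 : a1 ∉ T2 := fun h => ha1V (hT2V h)
    have haT2 : a ∉ T2 := fun h => haV' (hT2V h)
    have hzT2 : z ∉ T2 := fun h => hzV' (hT2V h)
    have hCT : Disjoint C T2 := by
      rw [Finset.disjoint_right]
      exact fun i hi h => hT2L1 i hi (hC h)
    have hF1T : ∀ b ∈ T2, Ind b F1 := fun b hb => hF1i b (by
      rw [mem_insert, not_or]
      exact ⟨ne_of_mem_of_not_mem hb ha1T2, hT2L1 b hb⟩)
    have hN0 : 0 ≤ NV hk V' (mg μ a1 fun x => F1 x * gT A p a1 T2 x) := NV_nonneg hk _ _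
    have hif1 : 0 ≤ (if C = ∅ then (if 1 ≤ T2.card ∧ T2.card < R then (2 * p) ^ T2.card *
        NV hk V' (mg μ a1 fun x => F1 x * gT A p a1 T2 x) else 0) else 0) := by
      split_ifs <;> first | positivity | exact le_rfl
    have hif2 : 0 ≤ 2 ^ C.card * (if R ≤ T2.card then (4 * p) ^ T2.card else 0) * N1 := by
      split_ifs <;> positivity
    have hgam : 0 ≤ 2 ^ C.card * (4 * p) ^ T2.card * (4 * p * N1) := by positivity
    have hone : 0 ≤ 2 ^ C.card * (4 * p) ^ T2.card * (p * 2 ^ T'.card * η * N) := by positivity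
    rw [mul_add (2 ^ C.card * (4 * p) ^ T2.card)]
    by_cases hbig : R ≤ T2.card
    · have h1 := term_beta hk (V' := V') ha1T2 hCT hF1m hF1T
      rw [if_pos hbig] at hif2 ⊢
      linarith
    rw [not_le] at hbig
    rcases Nat.lt_or_ge C.card 2 with hc | hc
    · rcases Nat.lt_or_ge C.card 1 with hc0 | hc1
      · -- no collision
        have hC0 : C = ∅ := by rw [← card_eq_zero]; omega
        subst hC0
        rcases Nat.lt_or_ge T2.card 1 with ht0 | ht1
        · have hT0 : T2 = ∅ := by rw [← card_eq_zero]; omega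
          subst hT0
          have e1 : (mg μ a1 fun x => F1 x * gT A p a1 ∅ x * gT A p a1 ∅ x) =
              mg μ a1 fun x => F1 x * gT A p a1 ∅ x := by
            congr 1; ext x; rw [gT_empty, mul_one]
          have h2 := term_zero hk (V' := V') ha1T' haa hF hFa1
          rw [e1]
          have h3 : NV hk V' (mg μ a1 fun x => F1 x * gT A p a1 ∅ x) = 0 :=
            le_antisymm h2 (NV_nonneg hk _ _)
          rw [h3]
          simp only [mul_zero]
          positivity
        · rw [if_pos rfl, if_pos ⟨ht1, hbig⟩]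
          have e1 : (mg μ a1 fun x => F1 x * gT A p a1 ∅ x * gT A p a1 T2 x) =
              mg μ a1 fun x => F1 x * gT A p a1 T2 x := by
            congr 1; ext x; rw [gT_empty, mul_one]
          rw [e1, card_empty, pow_zero, one_mul]
          rw [card_empty] at hif2 hgam hone
          linarith
      · -- one collision
        have hC1 : C.card = 1 := by omega
        obtain ⟨b, rfl⟩ := card_eq_one.1 hC1
        have hbL1 : b ∈ L1 := hC (mem_singleton_self b)
        have hbT2 : b ∉ T2 := fun h => hT2L1 b h hbL1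
        have hba : b ≠ a := fun h => haC (by rw [mem_singleton]; exact h.symm)
        have hba1 : b ≠ a1 := fun h => ha1C (by rw [mem_singleton]; exact h.symm)
        have hzb : z ≠ b := fun h => hzL1 (h ▸ hbL1)
        have e1 : (mg μ a1 fun x => F1 x * gT A p a1 {b} x * gT A p a1 T2 x) =
            mg μ a1 fun x => F1 x * gT A p a1 (insert b T2) x := by
          congr 1; ext x
          rw [gT_insert hbT2]
          unfold gT
          simp only [prod_singleton]
          ring
        have hmain : NV hk V' (mg μ a1 fun x => F1 x * gT A p a1 (insert b T2) x) ≤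
            2 ^ T'.card * (η * N) := by
          rw [hL1, mem_union] at hbL1
          have hdis : Disjoint T' T2 := by
            rw [Finset.disjoint_right]
            intro i hi h
            exact hT2L1 i hi (by rw [hL1]; exact mem_union_right _ h)
          rcases hbL1 with hbL | hbT'
          · have hbT' : b ∉ T' := Finset.disjoint_left.1 hT'L hbL
            have h3 := term_delta hk (V' := V') ha1T' haT' haa hba hba1 hbT' haT2 ha1T2 hbT2
              hdis hza1 hza hzb hzT2 hF hFa1 hFT'
            refine h3.trans (mul_le_mul_of_nonneg_left ?_ (by positivity))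
            have h4 := hM.m2 (T2.card + 2) (by omega) (by omega)
            have h5 : Real.sqrt (∫ s, ∫ t, |hh μ A p s t| ^ (T2.card + 2) ∂μ ∂μ) ≤ η := by
              refine (Real.sqrt_le_sqrt h4).trans ?_
              rw [show η ^ 4 = (η ^ 2) ^ 2 by ring, Real.sqrt_sq (sq_nonneg _)]
              nlinarith
            rw [mul_comm η N]
            exact mul_le_mul_of_nonneg_left h5 hN
          · -- sibling
            have hT'e : insert b (T'.erase b) = T' := insert_erase hbT'
            have hTR2 : T2.card ≤ R := hbig.le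
            have hbL : b ∉ L := Finset.disjoint_right.1 hT'L hbT'
            have h3 := term_eps hk hM (V' := V') (a := a) (a1 := a1) (s := b) (z := z)
              (T' := T'.erase b) (T2 := T2)
              (fun h => ha1T' (mem_of_mem_erase h)) (notMem_erase b T') hba1
              (fun h => haT' (mem_of_mem_erase h)) haa hba haT2 ha1T2 hbT2
              (Finset.disjoint_of_subset_left (erase_subset _ _) hdis)
              hza1 hza hzb hzT2 hTR2 hF hFa1 (hFT' b hbT') hFz
              (fun c hc => hFT' c (mem_of_mem_erase hc))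
              (fun c hc => hFi c (by
                rw [mem_insert, not_or]
                refine ⟨ne_of_mem_of_not_mem hc haT2, fun h => hT2L1 c hc ?_⟩
                rw [hL1]; exact mem_union_left _ h))
            rw [hT'e] at h3
            refine h3.trans (le_of_eq ?_)
            have hcc : T'.card = (T'.erase b).card + 1 := by
              rw [card_erase_of_mem hbT']
              have : 0 < T'.card := card_pos.2 ⟨b, hbT'⟩
              omega
            rw [hcc, pow_succ]
            ring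
        rw [e1, card_singleton] at *
        have h6 : (2 * p) ^ T2.card ≤ (4 * p) ^ T2.card :=
          pow_le_pow_left₀ (by positivity) (by linarith) _
        have h7 : (2 * p) ^ 1 * ((2 * p) ^ T2.card *
            NV hk V' (mg μ a1 fun x => F1 x * gT A p a1 (insert b T2) x)) ≤
            2 ^ 1 * (4 * p) ^ T2.card * (p * 2 ^ T'.card * η * N) := by
          calc _ ≤ (2 * p) ^ 1 * ((4 * p) ^ T2.card * (2 ^ T'.card * (η * N))) := by
                have := NV_nonneg hk V' (mg μ a1 fun x => F1 x * gT A p a1 (insert b T2) x)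
                gcongr
            _ = _ := by ring
        linarith
    · have h1 := term_gamma hk (V' := V') ha1T2 ha1C hCT hc hF1m hF1T
      linarith
  -- sum the bound
  have hsum : ∑ C ∈ L1.powerset, ∑ T2 ∈ (V' \ L1).powerset,
      (2 * p) ^ C.card * ((2 * p) ^ T2.card *
        NV hk V' (mg μ a1 fun x => F1 x * gT A p a1 C x * gT A p a1 T2 x)) ≤
      SS hk R V' L1 a1 F1 + (3 ^ L1.card * τ * N1 +
        3 ^ L1.card * M * (4 * p * N1 + p * 2 ^ T'.card * η * N)) := by
    refine (sum_le_sum fun C hC => sum_le_sum fun T2 hT2 => hpt C hC T2 hT2).trans ?_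
    simp only [sum_add_distrib]
    have hzB : z ∉ V' \ L1 := fun h => hzV' (mem_sdiff.1 h).1
    apply add_le_add
    · apply le_of_eq
      rw [sum_eq_single ∅]
      · simp only [if_true]
        unfold SS
        rw [sum_filter]
      · intro C _ hC
        simp only [if_neg hC, sum_const_zero]
      · intro h; exact absurd (empty_mem_powerset _) h
    apply add_le_add
    · have h1 := hτ (V' \ L1) hzB
      rw [sum_filter] at h1
      have h2 : ∀ C : Finset ι, ∑ T2 ∈ (V' \ L1).powerset,
          (2 : ℝ) ^ C.card * (if R ≤ T2.card then (4 * p) ^ T2.card else 0) * N1 =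
          2 ^ C.card * ((∑ T2 ∈ (V' \ L1).powerset,
            (if R ≤ T2.card then (4 * p) ^ T2.card else 0)) * N1) := by
        intro C
        rw [sum_mul, mul_sum]
        exact sum_congr rfl fun _ _ => by ring
      simp only [h2]
      rw [← sum_mul, sum_two_pow, mul_assoc]
      gcongr
    · have h1 := hS (V' \ L1) hzB
      have h1' : ∑ T2 ∈ (V' \ L1).powerset, (4 * p) ^ T2.card ≤ M := by
        refine le_trans (sum_le_sum fun T _ => ?_) h1
        exact pow_le_pow_left₀ (by positivity) (by linarith) _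
      have h2 : ∀ C : Finset ι, ∑ T2 ∈ (V' \ L1).powerset,
          (2 : ℝ) ^ C.card * (4 * p) ^ T2.card * (4 * p * N1 + p * 2 ^ T'.card * η * N) =
          2 ^ C.card * ((∑ T2 ∈ (V' \ L1).powerset, (4 * p) ^ T2.card) *
            (4 * p * N1 + p * 2 ^ T'.card * η * N)) := by
        intro C
        rw [sum_mul, mul_sum]
        exact sum_congr rfl fun _ _ => by ring
      simp only [h2]
      rw [← sum_mul, sum_two_pow, mul_assoc (3 ^ L1.card) M]
      exact mul_le_mul_of_nonneg_left (mul_le_mul_of_nonneg_right h1' (by positivity))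
        (by positivity)
  refine hsum.trans ?_
  have hIH := IH F1 hF1m hF1i
  have h8 : Ψ * 8 ^ L1.card * N1 ≤ Ψ * 8 ^ L1.card * (η * N) := by gcongr
  have h3p : (3 : ℝ) ^ L1.card ≤ 8 ^ L.card * 4 ^ T'.card := by
    rw [hcard, pow_add]
    gcongr <;> norm_num
  have h24 : (4 : ℝ) ^ T'.card * 2 ^ T'.card = 8 ^ T'.card := by
    rw [← mul_pow]; norm_num
  have h2one : (1 : ℝ) ≤ 2 ^ T'.card := one_le_pow₀ (by norm_num)
  have h9 : τ * N1 + M * (4 * p * N1 + p * 2 ^ T'.card * η * N) ≤
      2 ^ T'.card * ((τ + 5 * M * p * η) * N) := by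
    have k1 : τ * N1 ≤ 2 ^ T'.card * (τ * N) := by
      have : τ * N1 ≤ τ * N := by
        apply mul_le_mul_of_nonneg_left _ hτ0
        nlinarith
      nlinarith [mul_nonneg hτ0 hN, mul_le_mul_of_nonneg_right h2one (mul_nonneg hτ0 hN)]
    have k2 : M * (4 * p * N1) ≤ 2 ^ T'.card * (4 * M * p * η * N) := by
      have l1 : M * (4 * p * N1) ≤ M * (4 * p * (η * N)) := by gcongr
      have l2 : 0 ≤ M * (4 * p * (η * N)) := by positivity
      have l3 := mul_le_mul_of_nonneg_right h2one l2
      linarith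
    have k3 : M * (p * 2 ^ T'.card * η * N) = 2 ^ T'.card * (M * p * η * N) := by ring
    linarith
  calc SS hk R V' L1 a1 F1 + (3 ^ L1.card * τ * N1 +
        3 ^ L1.card * M * (4 * p * N1 + p * 2 ^ T'.card * η * N))
      ≤ Ψ * 8 ^ L1.card * (η * N) + 3 ^ L1.card * (τ * N1 +
        M * (4 * p * N1 + p * 2 ^ T'.card * η * N)) := by linarith
    _ ≤ Ψ * 8 ^ L1.card * (η * N) + (8 ^ L.card * 4 ^ T'.card) *
        (2 ^ T'.card * ((τ + 5 * M * p * η) * N)) := by
        gcongr
    _ = 8 ^ L.card * 8 ^ T'.card * (Ψ * η + (τ + 5 * M * p * η)) * N := by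
        rw [hcard, pow_add, ← h24]; ring

/-- the main proposition -/
theorem main_prop (hk : Ker μ A p) (hM : KB μ A p η R) {M τ : ℝ} {z : ι}
    (hS : ∀ B : Finset ι, z ∉ B → ∑ T ∈ B.powerset, (32 * p) ^ T.card ≤ M)
    (hτ : ∀ B : Finset ι, z ∉ B → ∑ T ∈ B.powerset with R ≤ T.card, (4 * p) ^ T.card ≤ τ)
    (hηM : η * M ≤ 1 / 2) (k : ℕ) :
    ∀ (V L : Finset ι) (a : ι) (F : (ι → Ω) → ℝ), V.card = k → z ∉ V → z ≠ a → a ∉ V → L ⊆ V →
      BM F → (∀ i, i ∉ insert a L → Ind i F) →
      SS hk R V L a F ≤ (2 * M * (τ + 5 * M * p * η)) * 8 ^ L.card * n2 (PP μ) F := by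
  have hp := hk.p0
  have hη := hM.eta0
  have hM1 : 1 ≤ M := by
    have := hS ∅ (notMem_empty _)
    simpa using this
  have hτ0 : 0 ≤ τ := by
    refine le_trans ?_ (hτ ∅ (notMem_empty _))
    exact sum_nonneg fun _ _ => by positivity
  set Ψ := 2 * M * (τ + 5 * M * p * η) with hΨd
  have hΨ : 0 ≤ Ψ := by positivity
  induction k with
  | zero =>
    intro V L a F hV hzV hza haV hL hF hFi
    rw [card_eq_zero] at hV
    subst hV
    have : SS hk R ∅ L a F = 0 := by
      unfold SS
      apply sum_eq_zero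
      intro T hT
      rw [mem_filter, mem_powerset] at hT
      have : T = ∅ := by
        rw [← subset_empty]
        exact hT.1.trans (by simp)
      rw [this] at hT
      simp at hT
    rw [this]
    have := n2_nonneg (P := PP μ) F
    positivity
  | succ k ih =>
    intro V L a F hV hzV hza haV hL hF hFi
    have hN := n2_nonneg (P := PP μ) F
    have hterm : ∀ T ∈ (V \ L).powerset.filter (fun T => 1 ≤ T.card ∧ T.card < R),
        (2 * p) ^ T.card * NV hk V (mg μ a fun x => F x * gT A p a T x) ≤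
        (16 * p) ^ T.card * (8 ^ L.card * (Ψ * η + (τ + 5 * M * p * η)) * n2 (PP μ) F) := by
      intro T hT
      rw [mem_filter, mem_powerset] at hT
      obtain ⟨hTV, hT1, hTR⟩ := hT
      obtain ⟨a1, ha1⟩ := card_pos.1 (by omega : 0 < T.card)
      have ha1V : a1 ∈ V := (mem_sdiff.1 (hTV ha1)).1
      have ha1L : a1 ∉ L := (mem_sdiff.1 (hTV ha1)).2
      have hVe : insert a1 (V.erase a1) = V := insert_erase ha1V
      have hTe : insert a1 (T.erase a1) = T := insert_erase ha1
      have hLV : L ⊆ V.erase a1 := fun i hi =>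
        mem_erase.2 ⟨fun h => ha1L (h ▸ hi), hL hi⟩
      have hTV' : T.erase a1 ⊆ V.erase a1 \ L := by
        intro i hi
        have h1 := mem_erase.1 hi
        have h2 := mem_sdiff.1 (hTV h1.2)
        exact mem_sdiff.2 ⟨mem_erase.2 ⟨h1.1, h2.1⟩, h2.2⟩
      have hcT : (T.erase a1).card + 1 = T.card := by
        rw [card_erase_of_mem ha1]; omega
      have h1 := perT hk hM hS hτ hΨ (V' := V.erase a1) (L := L) (T' := T.erase a1) (a := a)
        (a1 := a1) (notMem_erase a1 V) (by rw [hVe]; exact haV) hLV hTV' (by rw [hVe]; exact hzV)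
        hza (by omega) hF hFi (by
          intro F1 hF1 hF1i
          apply ih (V.erase a1) _ a1 F1 (by rw [card_erase_of_mem ha1V]; omega)
            (fun h => hzV (mem_of_mem_erase h)) (fun h => hzV (h ▸ ha1V)) (notMem_erase _ _)
            _ hF1 hF1i
          exact union_subset hLV fun i hi => (mem_sdiff.1 (hTV' hi)).1)
      rw [hVe, hTe] at h1
      have h2 : (2 * p) ^ T.card * NV hk V (mg μ a fun x => F x * gT A p a T x) ≤
          (2 * p) ^ T.card * (8 ^ L.card * 8 ^ (T.erase a1).card *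
            (Ψ * η + (τ + 5 * M * p * η)) * n2 (PP μ) F) :=
        mul_le_mul_of_nonneg_left h1 (by positivity)
      refine h2.trans ?_
      have h3 : (8 : ℝ) ^ (T.erase a1).card ≤ 8 ^ T.card :=
        pow_le_pow_right₀ (by norm_num) (by omega)
      have h4 : (16 * p) ^ T.card = (2 * p) ^ T.card * 8 ^ T.card := by
        rw [← mul_pow]; ring
      rw [h4]
      calc _ ≤ (2 * p) ^ T.card * (8 ^ L.card * 8 ^ T.card *
            (Ψ * η + (τ + 5 * M * p * η)) * n2 (PP μ) F) := by gcongr
        _ = _ := by ring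
    unfold SS
    refine (sum_le_sum hterm).trans ?_
    rw [← sum_mul]
    have h5 : ∑ T ∈ (V \ L).powerset with (1 ≤ T.card ∧ T.card < R), (16 * p) ^ T.card ≤ M := by
      have h6 := hS (V \ L) (fun h => hzV (mem_sdiff.1 h).1)
      refine le_trans ?_ h6
      refine (sum_le_sum_of_subset_of_nonneg (filter_subset _ _)
        (fun T _ _ => by positivity)).trans ?_
      exact sum_le_sum fun T _ => pow_le_pow_left₀ (by positivity) (by linarith) _
    have h7 : M * (Ψ * η + (τ + 5 * M * p * η)) ≤ Ψ := by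
      have h8 : Ψ * (η * M) ≤ Ψ * (1 / 2) := mul_le_mul_of_nonneg_left hηM hΨ
      have h9 : M * (τ + 5 * M * p * η) = Ψ / 2 := by rw [hΨd]; ring
      calc M * (Ψ * η + (τ + 5 * M * p * η)) = Ψ * (η * M) + M * (τ + 5 * M * p * η) := by ring
        _ ≤ Ψ * (1 / 2) + Ψ / 2 := by rw [h9]; linarith
        _ = Ψ := by ring
    have hX : 0 ≤ Ψ * η + (τ + 5 * M * p * η) := by positivity
    calc _ ≤ M * (8 ^ L.card * (Ψ * η + (τ + 5 * M * p * η)) * n2 (PP μ) F) := by
          gcongr
      _ = (M * (Ψ * η + (τ + 5 * M * p * η))) * 8 ^ L.card * n2 (PP μ) F := by ring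
      _ ≤ Ψ * 8 ^ L.card * n2 (PP μ) F := by gcongr

/-- Theorem A -/
theorem thmA (hk : Ker μ A p) (hM : KB μ A p η R) {M τ : ℝ} {z : ι}
    (hS : ∀ B : Finset ι, z ∉ B → ∑ T ∈ B.powerset, (32 * p) ^ T.card ≤ M)
    (hτ : ∀ B : Finset ι, z ∉ B → ∑ T ∈ B.powerset with R ≤ T.card, (4 * p) ^ T.card ≤ τ)
    (hηM : η * M ≤ 1 / 2) (V : Finset ι) (hzV : z ∉ V) :
    DV hk V ≤ V.card * (2 * M * (τ + 5 * M * p * η) + τ) := by
  have hp := hk.p0
  induction V using Finset.induction_on with
  | empty =>
    unfold DV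
    rw [edg_empty, DD_empty]
    simp
  | insert a V ha ih =>
    rw [mem_insert, not_or] at hzV
    have h1 := ih hzV.2
    refine (DV_rec hk ha).trans ?_
    rw [card_insert_of_notMem ha]
    push_cast
    have h2 : ∑ T ∈ V.powerset with T.Nonempty,
        (2 * p) ^ T.card * NV hk V (mg μ a fun x => gT A p a T x) ≤
        SS hk R V ∅ a (fun _ => 1) +
          ∑ T ∈ V.powerset with R ≤ T.card, (4 * p) ^ T.card := by
      unfold SS
      rw [sdiff_empty, sum_filter, sum_filter, sum_filter, ← sum_add_distrib]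
      apply sum_le_sum
      intro T hT
      rw [mem_powerset] at hT
      have haT : a ∉ T := fun h => ha (hT h)
      simp only [one_mul]
      have hNV := NV_nonneg hk V (mg μ a fun x => gT A p a T x)
      by_cases hR : R ≤ T.card
      · rw [if_pos hR]
        have h3 : NV hk V (mg μ a fun x => gT A p a T x) ≤ 2 ^ T.card := by
          have h4 := term_common hk (V' := V) (C := ∅) (F1 := fun _ => 1) haT
            (disjoint_empty_left _) (BM.const 1) (fun b _ => Ind.const b 1)
          simp only [one_mul, gT_empty] at h4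
          simpa using h4
        have h5 : (2 * p) ^ T.card * NV hk V (mg μ a fun x => gT A p a T x) ≤ (4 * p) ^ T.card := by
          calc _ ≤ (2 * p) ^ T.card * 2 ^ T.card := by gcongr
            _ = (4 * p) ^ T.card := by rw [← mul_pow]; ring
        have h6 : 0 ≤ (4 * p) ^ T.card := by positivity
        have h7 : 0 ≤ (2 * p) ^ T.card * NV hk V (mg μ a fun x => gT A p a T x) := by positivity
        split_ifs <;> linarith
      · rw [if_neg hR]
        by_cases hne : T.Nonempty
        · have : 1 ≤ T.card := card_pos.2 hne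
          rw [if_pos hne, if_pos ⟨this, by omega⟩]
          linarith
        · rw [if_neg hne]
          have h7 : 0 ≤ (2 * p) ^ T.card * NV hk V (mg μ a fun x => gT A p a T x) := by positivity
          split_ifs <;> linarith
    have h3 := main_prop hk hM hS hτ hηM V.card V ∅ a (fun _ => 1) rfl hzV.2 hzV.1 ha
      (empty_subset _) (BM.const 1) (fun i _ => Ind.const i 1)
    have h4 : n2 (PP (ι := ι) μ) (fun _ => (1 : ℝ)) = 1 := by simp [n2]
    rw [h4, card_empty, pow_zero, mul_one, mul_one] at h3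
    have h5 := hτ V hzV.2
    linarith

end Pool.Agent.H66.RGG
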