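import Pool.Agent.H66.RGG.Calc

open MeasureTheory Finset

set_option linter.unusedSectionVars false

namespace Pool.Agent.H66.RGG

/-! # The norm `N` (abstract edge version) -/

variable {X : Type*} [MeasurableSpace X] (P : Measure X) [IsProbabilityMeasure P]
variable {ε : Type*} [DecidableEq ε]

/-- the indicator of the pattern `S` on the edge set `E` -/
def pat (A : ε → X → ℝ) (E S : Finset ε) (x : X) : ℝ :=
  (∏ e ∈ S, A e x) * ∏ e ∈ E \ S, (1 - A e x)

/-- the norm `N_E` -/
noncomputable def NN (A : ε → X → ℝ) (E : Finset ε) (F : X → ℝ) : ℝ :=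
  ∑ S ∈ E.powerset, |∫ x, F x * pat A E S x ∂P|

/-- distance to the product law -/
noncomputable def DD (A : ε → X → ℝ) (p : ℝ) (E : Finset ε) : ℝ :=
  ∑ S ∈ E.powerset, |∫ x, pat A E S x ∂P - p ^ S.card * (1 - p) ^ (E \ S).card|

variable {P}
variable {A : ε → X → ℝ}

theorem BM.pat (hA : ∀ e, BM (A e)) (E S : Finset ε) : BM (pat A E S) :=
  (BM.prod _ fun e _ => hA e).mul (BM.prod _ fun e _ => (BM.const 1).sub (hA e))

theorem pat_insert_out {E S : Finset ε} {e : ε} (he : e ∉ E) (hS : S ⊆ E) (x : X) :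
    pat A (insert e E) S x = pat A E S x * (1 - A e x) := by
  have heS : e ∉ S := fun h => he (hS h)
  unfold pat
  rw [insert_sdiff_of_notMem _ heS, prod_insert (by simp [he])]
  ring

theorem pat_insert_in {E S : Finset ε} {e : ε} (he : e ∉ E) (hS : S ⊆ E) (x : X) :
    pat A (insert e E) (insert e S) x = pat A E S x * A e x := by
  have heS : e ∉ S := fun h => he (hS h)
  unfold pat
  rw [prod_insert heS]
  have : insert e E \ insert e S = E \ S := by
    rw [insert_sdiff_insert]
    ext y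
    simp only [mem_sdiff, mem_insert, not_or]
    constructor
    · rintro ⟨h1, -, h3⟩; exact ⟨h1, h3⟩
    · rintro ⟨h1, h3⟩; exact ⟨h1, fun h => he (h ▸ h1), h3⟩
  rw [this]
  ring

theorem NN_insert {E : Finset ε} {e : ε} (he : e ∉ E) (F : X → ℝ) :
    NN P A (insert e E) F = NN P A E (fun x => F x * A e x) +
      NN P A E (fun x => F x * (1 - A e x)) := by
  unfold NN
  rw [sum_powerset_insert he, add_comm]
  congr 1
  · apply sum_congr rfl
    intro S hS
    rw [mem_powerset] at hS
    congr 2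
    ext x
    rw [pat_insert_in he hS]
    ring
  · apply sum_congr rfl
    intro S hS
    rw [mem_powerset] at hS
    congr 2
    ext x
    rw [pat_insert_out he hS]
    ring

theorem NN_nonneg (E : Finset ε) (F : X → ℝ) : 0 ≤ NN P A E F :=
  sum_nonneg fun _ _ => abs_nonneg _

theorem NN_comb (hA : ∀ e, BM (A e)) (E : Finset ε) {F G : X → ℝ} (hF : BM F) (hG : BM G)
    (a b : ℝ) :
    NN P A E (fun x => a * F x + b * G x) ≤ |a| * NN P A E F + |b| * NN P A E G := by
  unfold NN
  rw [mul_sum, mul_sum, ← sum_add_distrib]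
  apply sum_le_sum
  intro S _
  have h1 := ((hF.mul (BM.pat hA E S)).integrable P)
  have h2 := ((hG.mul (BM.pat hA E S)).integrable P)
  have e : ∫ x, (a * F x + b * G x) * pat A E S x ∂P =
      a * ∫ x, F x * pat A E S x ∂P + b * ∫ x, G x * pat A E S x ∂P := by
    rw [← integral_const_mul, ← integral_const_mul, ← integral_add (h1.const_mul a)
      (h2.const_mul b)]
    congr 1; ext x; ring
  rw [e]
  refine (abs_add_le _ _).trans ?_
  rw [abs_mul, abs_mul]

/-- one edge at a time -/
theorem NN_insert_le {p : ℝ} (hp0 : 0 ≤ p) (hp1 : p ≤ 1) (hA : ∀ e, BM (A e)) {g : ε → X → ℝ}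
    (hg : ∀ e, BM (g e)) (hAg : ∀ e x, A e x = p * (1 + g e x)) {E : Finset ε} {e : ε}
    (he : e ∉ E) {F : X → ℝ} (hF : BM F) :
    NN P A (insert e E) F ≤ NN P A E F + 2 * p * NN P A E (fun x => F x * g e x) := by
  rw [NN_insert he]
  have e1 : (fun x => F x * A e x) = fun x => p * F x + p * (F x * g e x) := by
    ext x; rw [hAg]; ring
  have e2 : (fun x => F x * (1 - A e x)) = fun x => (1 - p) * F x + (-p) * (F x * g e x) := by
    ext x; rw [hAg]; ring
  rw [e1, e2]
  have h1 := NN_comb (P := P) hA E hF (hF.mul (hg e)) p p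
  have h2 := NN_comb (P := P) hA E hF (hF.mul (hg e)) (1 - p) (-p)
  rw [abs_of_nonneg hp0] at h1
  rw [abs_of_nonneg (by linarith : (0 : ℝ) ≤ 1 - p), abs_neg, abs_of_nonneg hp0] at h2
  linarith

theorem NN_empty (F : X → ℝ) : NN P A ∅ F = |∫ x, F x ∂P| := by
  simp [NN, pat]

/-- `N_E(F) ≤ E|F|` -/
theorem NN_le (hA : ∀ e, BM (A e)) (h0 : ∀ e x, 0 ≤ A e x) (h1 : ∀ e x, A e x ≤ 1)
    (E : Finset ε) {F : X → ℝ} (hF : BM F) : NN P A E F ≤ ∫ x, |F x| ∂P := by
  induction E using Finset.induction_on generalizing F with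
  | empty => rw [NN_empty]; exact abs_integral_le_integral_abs
  | insert e E he ih =>
    rw [NN_insert he]
    have h3 := ih (hF.mul (hA e))
    have h4 := ih (hF.mul ((BM.const 1).sub (hA e)))
    refine (add_le_add h3 h4).trans (le_of_eq ?_)
    rw [← integral_add ((hF.mul (hA e)).abs.integrable P) ((hF.mul ((BM.const 1).sub (hA e))).abs.integrable P)]
    congr 1
    ext x
    rw [abs_mul, abs_mul, abs_of_nonneg (h0 e x), abs_of_nonneg (by linarith [h1 e x] :
      (0 : ℝ) ≤ 1 - A e x)]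
    ring

theorem DD_empty (p : ℝ) : DD P A p ∅ = 0 := by
  simp [DD, pat]

theorem DD_insert_le {p : ℝ} (hp0 : 0 ≤ p) (hp1 : p ≤ 1) (hA : ∀ e, BM (A e)) {g : ε → X → ℝ}
    (hg : ∀ e, BM (g e)) (hAg : ∀ e x, A e x = p * (1 + g e x)) {E : Finset ε} {e : ε}
    (he : e ∉ E) :
    DD P A p (insert e E) ≤ DD P A p E + 2 * p * NN P A E (g e) := by
  unfold DD NN
  rw [sum_powerset_insert he, mul_sum, ← sum_add_distrib, ← sum_add_distrib]
  apply sum_le_sum
  intro S hS
  rw [mem_powerset] at hS
  have heS : e ∉ S := fun h => he (hS h)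
  have hpat := BM.pat hA E S
  set I := ∫ x, pat A E S x ∂P with hI
  set J := ∫ x, g e x * pat A E S x ∂P with hJ
  have hIi := hpat.integrable P
  have hJi := ((hg e).mul hpat).integrable P
  have e1 : ∫ x, pat A (insert e E) S x ∂P = (1 - p) * I - p * J := by
    rw [hI, hJ, ← integral_const_mul, ← integral_const_mul, ← integral_sub (hIi.const_mul _)
      (hJi.const_mul _)]
    congr 1; ext x
    rw [pat_insert_out he hS, hAg]; ring
  have e2 : ∫ x, pat A (insert e E) (insert e S) x ∂P = p * I + p * J := by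
    rw [hI, hJ, ← integral_const_mul, ← integral_const_mul, ← integral_add (hIi.const_mul _)
      (hJi.const_mul _)]
    congr 1; ext x
    rw [pat_insert_in he hS, hAg]; ring
  have c1 : (insert e E \ S).card = (E \ S).card + 1 := by
    rw [insert_sdiff_of_notMem _ heS, card_insert_of_notMem (by simp [he])]
  have c2 : (insert e E \ insert e S).card = (E \ S).card := by
    congr 1
    ext y
    simp only [mem_sdiff, mem_insert, not_or]
    constructor
    · rintro ⟨h1 | h1, h2, h3⟩
      · exact absurd h1 h2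
      · exact ⟨h1, h3⟩
    · rintro ⟨h1, h3⟩; exact ⟨Or.inr h1, fun h => he (h ▸ h1), h3⟩
  have c3 : (insert e S).card = S.card + 1 := card_insert_of_notMem heS
  rw [e1, e2, c1, c2, c3]
  set q := p ^ S.card * (1 - p) ^ (E \ S).card with hq
  have f1 : (1 - p) * I - p * J - p ^ S.card * (1 - p) ^ ((E \ S).card + 1) =
      (1 - p) * (I - q) + (-p) * J := by rw [hq]; ring
  have f2 : p * I + p * J - p ^ (S.card + 1) * (1 - p) ^ (E \ S).card =
      p * (I - q) + p * J := by rw [hq]; ring
  rw [f1, f2]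
  have g1 := abs_add_le ((1 - p) * (I - q)) ((-p) * J)
  have g2 := abs_add_le (p * (I - q)) (p * J)
  rw [abs_mul, abs_mul, abs_of_nonneg (by linarith : (0 : ℝ) ≤ 1 - p), abs_neg,
    abs_of_nonneg hp0] at g1
  rw [abs_mul, abs_mul, abs_of_nonneg hp0] at g2
  linarith

end Pool.Agent.H66.RGG
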