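import Pool.Agent.H66.RGG.NN

open MeasureTheory Finset

set_option linter.unusedSectionVars false

namespace Pool.Agent.H66.RGG

/-! # Star expansions -/

section abstract

variable {X : Type*} [MeasurableSpace X] {P : Measure X} [IsProbabilityMeasure P]
variable {ε : Type*} [DecidableEq ε] {A g : ε → X → ℝ} {p : ℝ}

theorem NN_congr {E : Finset ε} {F G : X → ℝ} (h : ∀ x, F x = G x) :
    NN P A E F = NN P A E G := by
  have : F = G := funext h
  rw [this]

theorem NN_star (hp0 : 0 ≤ p) (hp1 : p ≤ 1) (hA : ∀ e, BM (A e))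
    (hg : ∀ e, BM (g e)) (hAg : ∀ e x, A e x = p * (1 + g e x)) {β : Type*} [DecidableEq β]
    (φ : β → ε) (hφ : Function.Injective φ) (E : Finset ε) (B : Finset β)
    (hB : ∀ b ∈ B, φ b ∉ E) {F : X → ℝ} (hF : BM F) :
    NN P A (E ∪ B.image φ) F ≤
      ∑ T ∈ B.powerset, (2 * p) ^ T.card * NN P A E (fun x => F x * ∏ b ∈ T, g (φ b) x) := by
  induction B using Finset.induction_on generalizing F with
  | empty => simp
  | insert b B hb ih =>
    have hB' : ∀ c ∈ B, φ c ∉ E := fun c hc => hB c (mem_insert_of_mem hc)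
    have hbE : φ b ∉ E ∪ B.image φ := by
      rw [mem_union, not_or]
      refine ⟨hB b (mem_insert_self _ _), fun h => ?_⟩
      obtain ⟨c, hc, hcb⟩ := mem_image.1 h
      exact hb (hφ hcb ▸ hc)
    rw [image_insert, union_insert]
    refine (NN_insert_le hp0 hp1 hA hg hAg hbE hF).trans ?_
    have h1 := ih hB' hF
    have h2 := ih hB' (hF.mul (hg (φ b)))
    rw [sum_powerset_insert hb]
    have e : ∑ T ∈ B.powerset, (2 * p) ^ (insert b T).card *
        NN P A E (fun x => F x * ∏ c ∈ insert b T, g (φ c) x) =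
        2 * p * ∑ T ∈ B.powerset, (2 * p) ^ T.card *
          NN P A E (fun x => F x * g (φ b) x * ∏ c ∈ T, g (φ c) x) := by
      rw [mul_sum]
      apply sum_congr rfl
      intro T hT
      rw [mem_powerset] at hT
      have hbT : b ∉ T := fun h => hb (hT h)
      rw [card_insert_of_notMem hbT, pow_succ]
      rw [NN_congr (F := fun x => F x * ∏ c ∈ insert b T, g (φ c) x)
        (G := fun x => F x * g (φ b) x * ∏ c ∈ T, g (φ c) x)
        (fun x => by rw [prod_insert hbT]; ring)]
      ring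
    rw [e]
    have h3 := mul_le_mul_of_nonneg_left h2 (by linarith : 0 ≤ 2 * p)
    linarith

theorem DD_star (hp0 : 0 ≤ p) (hp1 : p ≤ 1) (hA : ∀ e, BM (A e))
    (hg : ∀ e, BM (g e)) (hAg : ∀ e x, A e x = p * (1 + g e x)) {β : Type*} [DecidableEq β]
    (φ : β → ε) (hφ : Function.Injective φ) (E : Finset ε) (B : Finset β)
    (hB : ∀ b ∈ B, φ b ∉ E) :
    DD P A p (E ∪ B.image φ) ≤ DD P A p E +
      ∑ T ∈ B.powerset with T.Nonempty,
        (2 * p) ^ T.card * NN P A E (fun x => ∏ b ∈ T, g (φ b) x) := by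
  induction B using Finset.induction_on with
  | empty =>
    rw [sum_filter]
    simp
  | insert b B hb ih =>
    have hB' : ∀ c ∈ B, φ c ∉ E := fun c hc => hB c (mem_insert_of_mem hc)
    have hbE : φ b ∉ E ∪ B.image φ := by
      rw [mem_union, not_or]
      refine ⟨hB b (mem_insert_self _ _), fun h => ?_⟩
      obtain ⟨c, hc, hcb⟩ := mem_image.1 h
      exact hb (hφ hcb ▸ hc)
    rw [image_insert, union_insert]
    refine (DD_insert_le hp0 hp1 hA hg hAg hbE).trans ?_
    have h1 := ih hB'
    have h2 := NN_star (P := P) hp0 hp1 hA hg hAg φ hφ E B hB' (hg (φ b))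
    rw [sum_filter] at h1 ⊢
    rw [sum_powerset_insert hb]
    have e : ∑ T ∈ B.powerset, (if (insert b T).Nonempty then (2 * p) ^ (insert b T).card *
        NN P A E (fun x => ∏ c ∈ insert b T, g (φ c) x) else 0) =
        2 * p * ∑ T ∈ B.powerset, (2 * p) ^ T.card *
          NN P A E (fun x => g (φ b) x * ∏ c ∈ T, g (φ c) x) := by
      rw [mul_sum]
      apply sum_congr rfl
      intro T hT
      rw [mem_powerset] at hT
      have hbT : b ∉ T := fun h => hb (hT h)
      rw [if_pos (insert_nonempty _ _), card_insert_of_notMem hbT, pow_succ]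
      rw [NN_congr (F := fun x => ∏ c ∈ insert b T, g (φ c) x)
        (G := fun x => g (φ b) x * ∏ c ∈ T, g (φ c) x)
        (fun x => by rw [prod_insert hbT])]
      ring
    rw [e]
    have h3 := mul_le_mul_of_nonneg_left h2 (by linarith : 0 ≤ 2 * p)
    linarith

end abstract

section product

variable {Ω : Type*} [MeasurableSpace Ω] {μ : Measure Ω} [IsProbabilityMeasure μ]
variable {ι : Type*} [Fintype ι] [DecidableEq ι]

theorem Ind.const (a : ι) (c : ℝ) : Ind a (fun _ : ι → Ω => c) := fun _ _ => rfl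

theorem Ind.sub {a : ι} {F G : (ι → Ω) → ℝ} (hF : Ind a F) (hG : Ind a G) :
    Ind a (fun x => F x - G x) := fun x y => by simp only [hF x y, hG x y]

theorem Ind.pow {a : ι} {F : (ι → Ω) → ℝ} (hF : Ind a F) (n : ℕ) :
    Ind a (fun x => F x ^ n) := fun x y => by simp only [hF x y]

theorem Ind.pair {a b c : ι} (hb : b ≠ a) (hc : c ≠ a) (k : Ω → Ω → ℝ) :
    Ind a (fun x : ι → Ω => k (x b) (x c)) := fun x y => by
  simp only [Function.update_of_ne hb, Function.update_of_ne hc]

theorem BM.pair {k : Ω → Ω → ℝ} (hk : BM (Function.uncurry k)) (a b : ι) :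
    BM (fun x : ι → Ω => k (x a) (x b)) := by
  have h : Measurable (fun x : ι → Ω => (x a, x b)) :=
    (measurable_pi_apply a).prodMk (measurable_pi_apply b)
  exact hk.comp h

/-- integrate out a vertex which is not used by the edges -/
theorem NN_mg {ε : Type*} [DecidableEq ε] {A : ε → (ι → Ω) → ℝ} (hA : ∀ e, BM (A e))
    {E : Finset ε} {a : ι} (ha : ∀ e ∈ E, Ind a (A e)) {F : (ι → Ω) → ℝ} (hF : BM F) :
    NN (PP μ) A E F = NN (PP μ) A E (mg μ a F) := by
  unfold NN
  apply sum_congr rfl
  intro S hS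
  rw [mem_powerset] at hS
  congr 1
  have hP : Ind a (pat A E S) := by
    apply Ind.mul
    · exact Ind.prod _ fun e he => ha e (hS he)
    · exact Ind.prod _ fun e he => (Ind.const a 1).sub (ha e (mem_sdiff.1 he).1)
  have h1 : ∫ x, F x * pat A E S x ∂(PP μ) = ∫ x, pat A E S x * F x ∂(PP μ) := by
    congr 1; ext x; ring
  rw [h1, integral_mul_mg (BM.pat hA E S) hP hF]
  congr 1; ext x; ring

end product

end Pool.Agent.H66.RGG
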