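import Pool.Agent.H66.RGG.Cases

open MeasureTheory Finset

set_option linter.unusedSectionVars false

namespace Pool.Agent.H66.RGG

/-! # The bounds of the individual terms -/

/-- the `L^2` norm -/
noncomputable def n2 {X : Type*} [MeasurableSpace X] (P : Measure X) (F : X → ℝ) : ℝ :=
  Real.sqrt (∫ x, F x ^ 2 ∂P)

section general

variable {X : Type*} [MeasurableSpace X] {P : Measure X} [IsProbabilityMeasure P]

theorem n2_nonneg (F : X → ℝ) : 0 ≤ n2 P F := Real.sqrt_nonneg _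

theorem cs' {F G : X → ℝ} (hF : BM F) (hG : BM G) :
    ∫ x, F x * G x ∂P ≤ n2 P F * n2 P G := by
  have := cs P hF hG
  rwa [← Real.sqrt_eq_rpow, ← Real.sqrt_eq_rpow] at this

theorem int_abs_le_n2 {F : X → ℝ} (hF : BM F) : ∫ x, |F x| ∂P ≤ n2 P F := by
  have h := cs' (P := P) hF.abs (BM.const 1)
  have e1 : n2 P (fun _ : X => (1 : ℝ)) = 1 := by simp [n2]
  have e2 : n2 P (fun x => |F x|) = n2 P F := by simp [n2]
  rw [e1, e2] at h
  simpa using h

theorem BM.sqrt {F : X → ℝ} (hF : BM F) : BM (fun x => Real.sqrt (F x)) := by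
  obtain ⟨C, hC⟩ := hF.bdd
  refine ⟨Real.continuous_sqrt.measurable.comp hF.meas, Real.sqrt C, fun x => ?_⟩
  rw [abs_of_nonneg (Real.sqrt_nonneg _)]
  exact Real.sqrt_le_sqrt ((le_abs_self _).trans (hC x))

/-- weighted Cauchy-Schwarz -/
theorem wcs {w Z : X → ℝ} (hw : BM w) (hw0 : ∀ x, 0 ≤ w x) (hZ : BM Z) :
    ∫ x, w x * |Z x| ∂P ≤ Real.sqrt (∫ x, w x ∂P) * Real.sqrt (∫ x, w x * Z x ^ 2 ∂P) := by
  have h := cs' (P := P) hw.sqrt (hw.sqrt.mul hZ.abs)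
  unfold n2 at h
  have e1 : ∀ x, Real.sqrt (w x) * (Real.sqrt (w x) * |Z x|) = w x * |Z x| := fun x => by
    rw [← mul_assoc, Real.mul_self_sqrt (hw0 x)]
  have e2 : ∀ x, Real.sqrt (w x) ^ 2 = w x := fun x => Real.sq_sqrt (hw0 x)
  have e3 : ∀ x, (Real.sqrt (w x) * |Z x|) ^ 2 = w x * Z x ^ 2 := fun x => by
    rw [mul_pow, e2, sq_abs]
  simp only [e1, e2, e3] at h
  exact h

end general

variable {Ω : Type*} [MeasurableSpace Ω] {μ : Measure Ω} [IsProbabilityMeasure μ]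
variable {A : Ω → Ω → ℝ} {p : ℝ}
variable {ι : Type*} [Fintype ι] [DecidableEq ι]

theorem abs_gT_le_prod (hk : Ker μ A p) (a : ι) (T : Finset ι) (x : ι → Ω) :
    |gT A p a T x| ≤ ∏ b ∈ T, gb A p (x a) (x b) := by
  unfold gT
  rw [abs_prod]
  exact prod_le_prod (fun _ _ => abs_nonneg _) fun b _ => hk.abs_g_le_gb _ _

theorem abs_gT_le (hk : Ker μ A p) (a : ι) (T : Finset ι) (x : ι → Ω) :
    |gT A p a T x| ≤ (1 / p) ^ T.card := by
  unfold gT
  rw [abs_prod]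
  refine (prod_le_prod (fun _ _ => abs_nonneg _) fun b _ => hk.abs_g_le _ _).trans (le_of_eq ?_)
  rw [prod_const]

/-- integrate out the free star -/
theorem free_star (hk : Ker μ A p) {a : ι} {T : Finset ι} (haT : a ∉ T) {K : (ι → Ω) → ℝ}
    (hK : BM K) (hKT : ∀ b ∈ T, Ind b K) :
    ∫ x, |K x * gT A p a T x| ∂(PP μ) ≤ 2 ^ T.card * ∫ x, |K x| ∂(PP μ) := by
  rw [← int_gb_prod hk haT hK.abs (fun b hb => (hKT b hb).abs)]
  apply integral_mono ((hK.mul (BM.gT hk a T)).abs.integrable _)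
    ((hK.abs.mul (BM.gbT hk a T)).integrable _)
  intro x
  show |K x * gT A p a T x| ≤ |K x| * ∏ b ∈ T, gb A p (x a) (x b)
  rw [abs_mul]
  exact mul_le_mul_of_nonneg_left (abs_gT_le_prod hk a T x) (abs_nonneg _)

/-- the L1 bound used for the terms with many edges -/
theorem term_common (hk : Ker μ A p) {a1 : ι} {V' C T2 : Finset ι} (haT : a1 ∉ T2)
    (hCT : Disjoint C T2) {F1 : (ι → Ω) → ℝ} (hF1 : BM F1) (hF1T : ∀ b ∈ T2, Ind b F1) :
    NV hk V' (mg μ a1 fun x => F1 x * gT A p a1 C x * gT A p a1 T2 x) ≤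
      2 ^ T2.card * ∫ x, |F1 x * gT A p a1 C x| ∂(PP μ) := by
  have h1 : BM (fun x => F1 x * gT A p a1 C x * gT A p a1 T2 x) :=
    (hF1.mul (BM.gT hk a1 C)).mul (BM.gT hk a1 T2)
  refine (NV_le hk V' (h1.mg a1)).trans ((int_abs_mg_le h1).trans ?_)
  apply free_star hk haT (hF1.mul (BM.gT hk a1 C))
  intro b hb
  apply (hF1T b hb).mul
  apply gT_ind
  · exact (ne_of_mem_of_not_mem hb haT).symm
  · exact Finset.disjoint_right.1 hCT hb

theorem term_beta (hk : Ker μ A p) {a1 : ι} {V' C T2 : Finset ι} (haT : a1 ∉ T2)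
    (hCT : Disjoint C T2) {F1 : (ι → Ω) → ℝ} (hF1 : BM F1) (hF1T : ∀ b ∈ T2, Ind b F1) :
    (2 * p) ^ C.card * ((2 * p) ^ T2.card *
      NV hk V' (mg μ a1 fun x => F1 x * gT A p a1 C x * gT A p a1 T2 x)) ≤
      2 ^ C.card * (4 * p) ^ T2.card * n2 (PP μ) F1 := by
  have hp := hk.p0
  have h1 := term_common hk (V' := V') haT hCT hF1 hF1T
  have h2 : ∫ x, |F1 x * gT A p a1 C x| ∂(PP μ) ≤ (1 / p) ^ C.card * n2 (PP μ) F1 := by
    have h3 : ∫ x, |F1 x * gT A p a1 C x| ∂(PP μ) ≤ ∫ x, (1 / p) ^ C.card * |F1 x| ∂(PP μ) := by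
      apply integral_mono ((hF1.mul (BM.gT hk a1 C)).abs.integrable _)
        ((hF1.abs.integrable _).const_mul _)
      intro x
      show |F1 x * gT A p a1 C x| ≤ (1 / p) ^ C.card * |F1 x|
      rw [abs_mul, mul_comm]
      exact mul_le_mul_of_nonneg_right (abs_gT_le hk a1 C x) (abs_nonneg _)
    rw [integral_const_mul] at h3
    exact h3.trans (mul_le_mul_of_nonneg_left (int_abs_le_n2 hF1) (by positivity))
  have h4 : NV hk V' (mg μ a1 fun x => F1 x * gT A p a1 C x * gT A p a1 T2 x) ≤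
      2 ^ T2.card * ((1 / p) ^ C.card * n2 (PP μ) F1) :=
    h1.trans (mul_le_mul_of_nonneg_left h2 (by positivity))
  calc (2 * p) ^ C.card * ((2 * p) ^ T2.card *
      NV hk V' (mg μ a1 fun x => F1 x * gT A p a1 C x * gT A p a1 T2 x))
      ≤ (2 * p) ^ C.card * ((2 * p) ^ T2.card *
        (2 ^ T2.card * ((1 / p) ^ C.card * n2 (PP μ) F1))) := by gcongr
    _ = ((2 * p) * (1 / p)) ^ C.card * ((2 * p) * 2) ^ T2.card * n2 (PP μ) F1 := by
        rw [mul_pow (2 * p) (1 / p), mul_pow (2 * p) 2]; ring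
    _ = 2 ^ C.card * (4 * p) ^ T2.card * n2 (PP μ) F1 := by
        congr 3
        · field_simp
        · ring

theorem n2_gb_gb (hk : Ker μ A p) {a b1 b2 : ι} (h1 : a ≠ b1) (h2 : a ≠ b2) (h12 : b1 ≠ b2) :
    n2 (PP (ι := ι) μ) (fun x => gb A p (x a) (x b1) * gb A p (x a) (x b2)) ≤ 4 / p := by
  have hp := hk.p0
  have hb1 : BM (fun x : ι → Ω => gb A p (x a) (x b1) ^ 2) := (BM.pair hk.bmgb a b1).pow 2
  have hb2 : BM (fun x : ι → Ω => gb A p (x a) (x b2) ^ 2) := (BM.pair hk.bmgb a b2).pow 2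
  unfold n2
  apply Real.sqrt_le_iff.2
  refine ⟨by positivity, ?_⟩
  have e1 : ∫ x : ι → Ω, (gb A p (x a) (x b1) * gb A p (x a) (x b2)) ^ 2 ∂(PP μ) =
      ∫ x : ι → Ω, gb A p (x a) (x b1) ^ 2 * gb A p (x a) (x b2) ^ 2 ∂(PP μ) := by
    congr 1; ext x; ring
  rw [e1, integral_mul_mg (a := b2) hb1 ((Ind.pair h2 h12 _).pow 2) hb2]
  have e2 : ∀ x : ι → Ω, mg μ b2 (fun x => gb A p (x a) (x b2) ^ 2) x =
      ∫ y, gb A p (x a) y ^ 2 ∂μ := fun x =>
    mg_pair (k := fun s t => gb A p s t ^ 2) h2 x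
  have hbb : BM (mg μ b2 (fun x : ι → Ω => gb A p (x a) (x b2) ^ 2)) := hb2.mg b2
  have h3 : ∫ x : ι → Ω, gb A p (x a) (x b1) ^ 2 *
      mg μ b2 (fun x => gb A p (x a) (x b2) ^ 2) x ∂(PP μ) ≤
      ∫ x : ι → Ω, gb A p (x a) (x b1) ^ 2 * (4 / p) ∂(PP μ) := by
    apply integral_mono ((hb1.mul hbb).integrable _) ((hb1.integrable _).mul_const _)
    intro x
    show gb A p (x a) (x b1) ^ 2 * mg μ b2 (fun x => gb A p (x a) (x b2) ^ 2) x ≤
      gb A p (x a) (x b1) ^ 2 * (4 / p)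
    rw [e2]
    exact mul_le_mul_of_nonneg_left (hk.int_gb_sq_le _) (sq_nonneg _)
  refine h3.trans ?_
  rw [integral_mul_const, sq (4 / p)]
  apply mul_le_mul_of_nonneg_right _ (by positivity)
  rw [← integral_mg hb1 b1]
  have e3 : ∀ x : ι → Ω, mg μ b1 (fun x => gb A p (x a) (x b1) ^ 2) x =
      ∫ y, gb A p (x a) y ^ 2 ∂μ := fun x =>
    mg_pair (k := fun s t => gb A p s t ^ 2) h1 x
  have h4 : ∫ x : ι → Ω, mg μ b1 (fun x => gb A p (x a) (x b1) ^ 2) x ∂(PP μ) ≤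
      ∫ _ : ι → Ω, 4 / p ∂(PP μ) := by
    apply integral_mono ((hb1.mg b1).integrable _) (integrable_const _)
    intro x
    show mg μ b1 (fun x => gb A p (x a) (x b1) ^ 2) x ≤ 4 / p
    rw [e3]
    exact hk.int_gb_sq_le _
  simpa using h4

theorem term_gamma (hk : Ker μ A p) {a1 : ι} {V' C T2 : Finset ι} (haT : a1 ∉ T2) (haC : a1 ∉ C)
    (hCT : Disjoint C T2) (hC : 2 ≤ C.card) {F1 : (ι → Ω) → ℝ} (hF1 : BM F1)
    (hF1T : ∀ b ∈ T2, Ind b F1) :
    (2 * p) ^ C.card * ((2 * p) ^ T2.card *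
      NV hk V' (mg μ a1 fun x => F1 x * gT A p a1 C x * gT A p a1 T2 x)) ≤
      2 ^ C.card * (4 * p) ^ T2.card * (4 * p * n2 (PP μ) F1) := by
  have hp := hk.p0
  have h1 := term_common hk (V' := V') haT hCT hF1 hF1T
  obtain ⟨b1, hb1, b2, hb2, h12⟩ := one_lt_card.1 hC
  have hab1 : a1 ≠ b1 := (ne_of_mem_of_not_mem hb1 haC).symm
  have hab2 : a1 ≠ b2 := (ne_of_mem_of_not_mem hb2 haC).symm
  obtain ⟨k, hk2⟩ : ∃ k, C.card = k + 2 := ⟨C.card - 2, by omega⟩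
  have hgT : ∀ x, |gT A p a1 C x| ≤
      (1 / p) ^ k * (gb A p (x a1) (x b1) * gb A p (x a1) (x b2)) := by
    intro x
    have hb2' : b2 ∈ C.erase b1 := mem_erase.2 ⟨h12.symm, hb2⟩
    have hc : ((C.erase b1).erase b2).card = k := by
      rw [card_erase_of_mem hb2', card_erase_of_mem hb1]; omega
    unfold gT
    rw [← mul_prod_erase C _ hb1, ← mul_prod_erase (C.erase b1) _ hb2', abs_mul, abs_mul]
    have h5 := abs_gT_le hk a1 ((C.erase b1).erase b2) x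
    rw [hc] at h5
    unfold gT at h5
    calc |gg A p (x a1) (x b1)| * (|gg A p (x a1) (x b2)| *
          |∏ b ∈ (C.erase b1).erase b2, gg A p (x a1) (x b)|)
        ≤ gb A p (x a1) (x b1) * (gb A p (x a1) (x b2) * (1 / p) ^ k) := by
          have g1 := hk.abs_g_le_gb (x a1) (x b1)
          have g2 := hk.abs_g_le_gb (x a1) (x b2)
          have g3 := hk.gb_nonneg (x a1) (x b1)
          have g4 := hk.gb_nonneg (x a1) (x b2)
          gcongr
      _ = _ := by ring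
  have hbb : BM (fun x : ι → Ω => gb A p (x a1) (x b1) * gb A p (x a1) (x b2)) :=
    (BM.pair hk.bmgb a1 b1).mul (BM.pair hk.bmgb a1 b2)
  have h2 : ∫ x, |F1 x * gT A p a1 C x| ∂(PP μ) ≤
      (1 / p) ^ k * (n2 (PP μ) F1 * (4 / p)) := by
    have h3 : ∫ x, |F1 x * gT A p a1 C x| ∂(PP μ) ≤
        ∫ x, (1 / p) ^ k * (|F1 x| * (gb A p (x a1) (x b1) * gb A p (x a1) (x b2))) ∂(PP μ) := by
      apply integral_mono ((hF1.mul (BM.gT hk a1 C)).abs.integrable _)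
        (((hF1.abs.mul hbb).integrable _).const_mul _)
      intro x
      show |F1 x * gT A p a1 C x| ≤
        (1 / p) ^ k * (|F1 x| * (gb A p (x a1) (x b1) * gb A p (x a1) (x b2)))
      rw [abs_mul]
      have := mul_le_mul_of_nonneg_left (hgT x) (abs_nonneg (F1 x))
      refine this.trans (le_of_eq ?_)
      ring
    rw [integral_const_mul] at h3
    refine h3.trans (mul_le_mul_of_nonneg_left ?_ (by positivity))
    have h4 := cs' (P := PP μ) hF1.abs hbb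
    have e : n2 (PP μ) (fun x => |F1 x|) = n2 (PP μ) F1 := by simp [n2]
    rw [e] at h4
    exact h4.trans (mul_le_mul_of_nonneg_left (n2_gb_gb hk hab1 hab2 h12) (n2_nonneg _))
  have h4 : NV hk V' (mg μ a1 fun x => F1 x * gT A p a1 C x * gT A p a1 T2 x) ≤
      2 ^ T2.card * ((1 / p) ^ k * (n2 (PP μ) F1 * (4 / p))) :=
    h1.trans (mul_le_mul_of_nonneg_left h2 (by positivity))
  calc (2 * p) ^ C.card * ((2 * p) ^ T2.card *
      NV hk V' (mg μ a1 fun x => F1 x * gT A p a1 C x * gT A p a1 T2 x))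
      ≤ (2 * p) ^ C.card * ((2 * p) ^ T2.card *
        (2 ^ T2.card * ((1 / p) ^ k * (n2 (PP μ) F1 * (4 / p))))) := by gcongr
    _ = ((2 * p) * (1 / p)) ^ k * (2 * p) ^ 2 * ((2 * p) * 2) ^ T2.card *
        (4 / p) * n2 (PP μ) F1 := by
        rw [mul_pow (2 * p) (1 / p), mul_pow (2 * p) 2 T2.card, hk2, pow_add (2 * p) k 2]; ring
    _ = 2 ^ C.card * (4 * p) ^ T2.card * (4 * p * n2 (PP μ) F1) := by
        have e1 : (2 * p) * (1 / p) = 2 := by field_simp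
        have e2 : (2 * p) * 2 = 4 * p := by ring
        rw [e1, e2, hk2, pow_add]
        field_simp

end Pool.Agent.H66.RGG
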