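import Pool.Agent.H66.RGG.Terms

open MeasureTheory Finset

set_option linter.unusedSectionVars false

namespace Pool.Agent.H66.RGG

/-! # One collision -/

/-- the moment hypotheses -/
structure KB {Ω : Type*} [MeasurableSpace Ω] (μ : Measure Ω) (A : Ω → Ω → ℝ) (p η : ℝ) (R : ℕ) :
    Prop where
  eta0 : 0 ≤ η
  eta1 : η ≤ 1
  m2 : ∀ r : ℕ, 2 ≤ r → r ≤ 2 * R + 2 → ∫ x, ∫ y, |hh μ A p x y| ^ r ∂μ ∂μ ≤ η ^ 4
  m4 : ∀ x, ∫ y, gb A p x y * |hh μ A p x y| ∂μ ≤ η
  m6 : ∀ x, ∀ s : ℕ, 1 ≤ s → s ≤ R →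
    ∫ u, ∫ y, ∫ z, gb A p x u * (gb A p y x * gb A p y u) * (gb A p z x * gb A p z u)
      * |hh μ A p y z| ^ s ∂μ ∂μ ∂μ ≤ η ^ 2

variable {Ω : Type*} [MeasurableSpace Ω] {μ : Measure Ω} [IsProbabilityMeasure μ]
variable {A : Ω → Ω → ℝ} {p η : ℝ} {R : ℕ}
variable {ι : Type*} [Fintype ι] [DecidableEq ι]

theorem gT_insert {a b : ι} {T : Finset ι} (hb : b ∉ T) (x : ι → Ω) :
    gT A p a (insert b T) x = gg A p (x a) (x b) * gT A p a T x := by
  unfold gT; rw [prod_insert hb]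

theorem gT_union {a : ι} {C T : Finset ι} (h : Disjoint C T) (x : ι → Ω) :
    gT A p a C x * gT A p a T x = gT A p a (C ∪ T) x := by
  unfold gT; rw [prod_union h]

theorem gT_empty (a : ι) (x : ι → Ω) : gT A p a ∅ x = 1 := by
  unfold gT; simp

/-- common part of the one-collision terms -/
theorem de_common (hk : Ker μ A p) {a a1 : ι} {T' C V' : Finset ι} (ha1 : a1 ∉ T')
    (haa : a ≠ a1) (haC : a ∉ C) {F : (ι → Ω) → ℝ} (hF : BM F)
    (hFa : Ind a1 F) :
    NV hk V' (mg μ a1 fun x => mg μ a (fun x => F x * gT A p a (insert a1 T') x) x *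
      gT A p a1 C x) ≤
      ∫ x, |F x * mg μ a1 (gT A p a1 (insert a C)) x * gT A p a T' x| ∂(PP μ) := by
  have hB : BM (fun x => F x * gT A p a T' x * mg μ a1 (gT A p a1 (insert a C)) x) :=
    (hF.mul (BM.gT hk a T')).mul ((BM.gT hk a1 _).mg a1)
  have e1 : (mg μ a1 fun x => mg μ a (fun x => F x * gT A p a (insert a1 T') x) x *
      gT A p a1 C x) =
      mg μ a (fun x => F x * gT A p a T' x * mg μ a1 (gT A p a1 (insert a C)) x) := by
    ext x
    exact key hk ha1 haa haC hF hFa x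
  rw [e1]
  refine (NV_le hk V' (hB.mg a)).trans ((int_abs_mg_le hB).trans (le_of_eq ?_))
  congr 1; ext x; congr 1; ring

/-- the term without any collision and without any new edge vanishes -/
theorem term_zero (hk : Ker μ A p) {a a1 : ι} {T' V' : Finset ι} (ha1 : a1 ∉ T')
    (haa : a ≠ a1) {F : (ι → Ω) → ℝ} (hF : BM F)
    (hFa : Ind a1 F) :
    NV hk V' (mg μ a1 fun x => mg μ a (fun x => F x * gT A p a (insert a1 T') x) x *
      gT A p a1 ∅ x) ≤ 0 := by
  refine (de_common hk (V' := V') ha1 haa (notMem_empty a) hF hFa).trans (le_of_eq ?_)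
  have e1 : ∀ x : ι → Ω, mg μ a1 (gT A p a1 (insert a ∅)) x = 0 := by
    intro x
    have : (gT A p a1 (insert a ∅) : (ι → Ω) → ℝ) = fun x => gg A p (x a) (x a1) := by
      ext x
      unfold gT
      simp [hk.g_symm (x a1) (x a)]
    rw [this]
    have h2 := mg_pair (μ := μ) (k := gg A p) haa x
    rw [h2, hk.int_g]
  simp only [e1]
  simp

/-- one collision with an old leaf -/
theorem term_delta (hk : Ker μ A p) {a a1 b z : ι} {T' T2 V' : Finset ι} (ha1 : a1 ∉ T')
    (haT' : a ∉ T') (haa : a ≠ a1) (hba : b ≠ a) (hba1 : b ≠ a1) (hbT' : b ∉ T')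
    (haT2 : a ∉ T2) (ha1T2 : a1 ∉ T2) (hbT2 : b ∉ T2) (hdis : Disjoint T' T2)
    (hza1 : z ≠ a1) (hza : z ≠ a) (hzb : z ≠ b) (hzT2 : z ∉ T2)
    {F : (ι → Ω) → ℝ} (hF : BM F) (hFa : Ind a1 F) (hFT : ∀ c ∈ T', Ind c F) :
    NV hk V' (mg μ a1 fun x => mg μ a (fun x => F x * gT A p a (insert a1 T') x) x *
      gT A p a1 (insert b T2) x) ≤
      2 ^ T'.card * (n2 (PP μ) F *
        Real.sqrt (∫ s, ∫ t, |hh μ A p s t| ^ (T2.card + 2) ∂μ ∂μ)) := by
  have haC : a ∉ insert b T2 := by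
    rw [mem_insert, not_or]; exact ⟨hba.symm, haT2⟩
  refine (de_common hk (V' := V') ha1 haa haC hF hFa).trans ?_
  set Z : (ι → Ω) → ℝ := mg μ a1 (gT A p a1 (insert a (insert b T2))) with hZ
  have hZm : BM Z := (BM.gT hk a1 _).mg a1
  have hZc : ∀ c ∈ T', Ind c Z := by
    intro c hc
    apply Ind.mg
    apply gT_ind
    · exact (ne_of_mem_of_not_mem hc ha1).symm
    · rw [mem_insert, mem_insert, not_or, not_or]
      exact ⟨ne_of_mem_of_not_mem hc haT', ne_of_mem_of_not_mem hc hbT',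
        Finset.disjoint_left.1 hdis hc⟩
  refine (free_star hk haT' (hF.mul hZm) (fun c hc => (hFT c hc).mul (hZc c hc))).trans ?_
  apply mul_le_mul_of_nonneg_left _ (by positivity)
  have h1 : ∫ x, |F x * Z x| ∂(PP μ) = ∫ x, |F x| * |Z x| ∂(PP μ) := by
    congr 1; ext x; rw [abs_mul]
  rw [h1]
  have h2 := cs' (P := PP μ) hF.abs hZm.abs
  have e1 : n2 (PP μ) (fun x => |F x|) = n2 (PP μ) F := by simp [n2]
  rw [e1] at h2
  refine h2.trans (mul_le_mul_of_nonneg_left ?_ (n2_nonneg _))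
  have e2 : n2 (PP μ) (fun x => |Z x|) = n2 (PP μ) Z := by simp [n2]
  rw [e2]
  unfold n2
  apply Real.sqrt_le_sqrt
  have ha1C : a1 ∉ insert a (insert b T2) := by
    rw [mem_insert, mem_insert, not_or, not_or]; exact ⟨haa.symm, hba1.symm, ha1T2⟩
  have hzC : z ∉ insert a (insert b T2) := by
    rw [mem_insert, mem_insert, not_or, not_or]; exact ⟨hza, hzb, hzT2⟩
  rw [Z_sq hk hza1.symm ha1C hzC, card_insert_of_notMem haC, card_insert_of_notMem hbT2]
  apply integral_mono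
  · exact ((hk.bmh.pow _).integrable (μ.prod μ)).integral_prod_left
  · exact ((hk.bmh.abs.pow _).integrable (μ.prod μ)).integral_prod_left
  intro s
  apply integral_mono (((hk.bmh1 s).pow _).integrable _) (((hk.bmh1 s).abs.pow _).integrable _)
  intro t
  show hh μ A p s t ^ (T2.card + 1 + 1) ≤ |hh μ A p s t| ^ (T2.card + 2)
  rw [← abs_pow]
  exact le_abs_self _

/-- the five-fold moment -/
theorem eps_moment (hk : Ker μ A p) (hM : KB μ A p η R) {a s y z : ι} {T2 : Finset ι}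
    (hsa : s ≠ a) (hya : y ≠ a) (hys : y ≠ s) (hza : z ≠ a) (hzs : z ≠ s) (hzy : z ≠ y)
    (haT : a ∉ T2) (hsT : s ∉ T2) (hyT : y ∉ T2) (hzT : z ∉ T2) (hT1 : 1 ≤ T2.card)
    (hTR : T2.card ≤ R)
    {F : (ι → Ω) → ℝ} (hF : BM F) (hFs : Ind s F) (hFy : Ind y F) (hFz : Ind z F)
    (hFT : ∀ c ∈ T2, Ind c F) :
    ∫ x, (|F x| * gb A p (x a) (x s)) * mg μ y (gT A p y (insert a (insert s T2))) x ^ 2
      ∂(PP μ) ≤ η ^ 2 * ∫ x, |F x| ∂(PP μ) := by
  have haC : a ∉ insert s T2 := by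
    rw [mem_insert, not_or]; exact ⟨hsa.symm, haT⟩
  have hyC : y ∉ insert a (insert s T2) := by
    rw [mem_insert, mem_insert, not_or, not_or]; exact ⟨hya, hys, hyT⟩
  have hzC : z ∉ insert a (insert s T2) := by
    rw [mem_insert, mem_insert, not_or, not_or]; exact ⟨hza, hzs, hzT⟩
  have hK : BM (fun x => |F x| * gb A p (x a) (x s)) := hF.abs.mul (BM.pair hk.bmgb a s)
  rw [int_weight_sq hzy.symm (BM.gT hk y _) (gT_ind hzy.symm hzC) hK
    (hFy.abs.mul (Ind.pair hya.symm hys.symm _)) (hFz.abs.mul (Ind.pair hza.symm hzs.symm _))]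
  have hP4 : BM (fun x : ι → Ω => gg A p (x y) (x a) * gg A p (x z) (x a) *
      (gg A p (x y) (x s) * gg A p (x z) (x s))) :=
    ((BM.pair hk.bmg y a).mul (BM.pair hk.bmg z a)).mul
      ((BM.pair hk.bmg y s).mul (BM.pair hk.bmg z s))
  have e1 : ∫ x, |F x| * gb A p (x a) (x s) * (gT A p y (insert a (insert s T2)) x *
      ren y z (gT A p y (insert a (insert s T2))) x) ∂(PP μ) =
      ∫ x, (|F x| * gb A p (x a) (x s) * (gg A p (x y) (x a) * gg A p (x z) (x a) *
      (gg A p (x y) (x s) * gg A p (x z) (x s)))) *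
        ∏ b ∈ T2, (gg A p (x y) (x b) * gg A p (x z) (x b)) ∂(PP μ) := by
    congr 1; ext x
    rw [ren_gT hyC, gT_insert haC, gT_insert hsT, gT_insert haC, gT_insert hsT,
      prod_mul_distrib]
    unfold gT; ring
  rw [e1, int_gg_prod hk hyT hzT (hK.mul hP4)]
  swap
  · intro b hb
    have hba : a ≠ b := (ne_of_mem_of_not_mem hb haT).symm
    have hbs : s ≠ b := (ne_of_mem_of_not_mem hb hsT).symm
    have hby : y ≠ b := (ne_of_mem_of_not_mem hb hyT).symm
    have hbz : z ≠ b := (ne_of_mem_of_not_mem hb hzT).symm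
    exact ((hFT b hb).abs.mul (Ind.pair hba hbs _)).mul
      (((Ind.pair hby hba _).mul (Ind.pair hbz hba _)).mul
        ((Ind.pair hby hbs _).mul (Ind.pair hbz hbs _)))
  set m := T2.card with hm
  -- the dominating five-fold kernel
  set G : (ι → Ω) → ℝ := fun x => gb A p (x a) (x s) * (gb A p (x y) (x a) * gb A p (x y) (x s)) *
    (gb A p (x z) (x a) * gb A p (x z) (x s)) * |hh μ A p (x y) (x z)| ^ m with hG
  have hGm : BM G := (((BM.pair hk.bmgb a s).mul ((BM.pair hk.bmgb y a).mul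
    (BM.pair hk.bmgb y s))).mul ((BM.pair hk.bmgb z a).mul (BM.pair hk.bmgb z s))).mul
    ((BM.pair hk.bmh y z).abs.pow m)
  have h1 : ∫ x, |F x| * gb A p (x a) (x s) * (gg A p (x y) (x a) * gg A p (x z) (x a) *
      (gg A p (x y) (x s) * gg A p (x z) (x s))) * hh μ A p (x y) (x z) ^ m ∂(PP μ) ≤
      ∫ x, |F x| * G x ∂(PP μ) := by
    apply integral_mono ((((hF.abs.mul (BM.pair hk.bmgb a s)).mul hP4).mul
      ((BM.pair hk.bmh y z).pow m)).integrable _) ((hF.abs.mul hGm).integrable _)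
    intro x
    show |F x| * gb A p (x a) (x s) * (gg A p (x y) (x a) * gg A p (x z) (x a) *
      (gg A p (x y) (x s) * gg A p (x z) (x s))) * hh μ A p (x y) (x z) ^ m ≤
      |F x| * (gb A p (x a) (x s) * (gb A p (x y) (x a) * gb A p (x y) (x s)) *
    (gb A p (x z) (x a) * gb A p (x z) (x s)) * |hh μ A p (x y) (x z)| ^ m)
    have g0 : 0 ≤ |F x| * gb A p (x a) (x s) := mul_nonneg (abs_nonneg _) (hk.gb_nonneg _ _)
    have g1 : gg A p (x y) (x a) * gg A p (x z) (x a) *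
      (gg A p (x y) (x s) * gg A p (x z) (x s)) * hh μ A p (x y) (x z) ^ m ≤
      gb A p (x y) (x a) * gb A p (x z) (x a) *
      (gb A p (x y) (x s) * gb A p (x z) (x s)) * |hh μ A p (x y) (x z)| ^ m := by
      refine (le_abs_self _).trans ?_
      rw [abs_mul, abs_mul, abs_mul, abs_mul, abs_pow]
      have k1 := hk.abs_g_le_gb (x y) (x a)
      have k2 := hk.abs_g_le_gb (x z) (x a)
      have k3 := hk.abs_g_le_gb (x y) (x s)
      have k4 := hk.abs_g_le_gb (x z) (x s)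
      have l1 := hk.gb_nonneg (x y) (x a)
      have l2 := hk.gb_nonneg (x z) (x a)
      have l3 := hk.gb_nonneg (x y) (x s)
      have l4 := hk.gb_nonneg (x z) (x s)
      gcongr
    have := mul_le_mul_of_nonneg_left g1 g0
    calc _ = |F x| * gb A p (x a) (x s) * (gg A p (x y) (x a) * gg A p (x z) (x a) *
      (gg A p (x y) (x s) * gg A p (x z) (x s)) * hh μ A p (x y) (x z) ^ m) := by ring
      _ ≤ _ := this
      _ = _ := by ring
  refine h1.trans ?_
  rw [integral_mul_mg hF.abs hFz.abs hGm, integral_mul_mg hF.abs hFy.abs (hGm.mg z),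
    integral_mul_mg hF.abs hFs.abs ((hGm.mg z).mg y), ← integral_const_mul]
  apply integral_mono ((hF.abs.mul (((hGm.mg z).mg y).mg s)).integrable _)
    ((hF.abs.integrable _).const_mul _)
  intro x
  show |F x| * mg μ s (mg μ y (mg μ z G)) x ≤ η ^ 2 * |F x|
  rw [mul_comm]
  apply mul_le_mul_of_nonneg_right _ (abs_nonneg _)
  refine le_trans (le_of_eq ?_) (hM.m6 (x a) m hT1 hTR)
  unfold mg
  congr 1; ext u
  congr 1; ext v
  congr 1; ext w
  rw [hG]
  simp only [Function.update_self, Function.update_of_ne hza.symm, Function.update_of_ne hya.symm,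
    Function.update_of_ne hsa.symm, Function.update_of_ne hzs.symm, Function.update_of_ne hys.symm,
    Function.update_of_ne hzy.symm]

/-- one collision with a sibling -/
theorem term_eps (hk : Ker μ A p) (hM : KB μ A p η R) {a a1 s z : ι} {T' T2 V' : Finset ι}
    (ha1 : a1 ∉ T') (hsT' : s ∉ T') (has1 : s ≠ a1)
    (haT' : a ∉ T') (haa : a ≠ a1) (hsa : s ≠ a)
    (haT2 : a ∉ T2) (ha1T2 : a1 ∉ T2) (hsT2 : s ∉ T2) (hdis : Disjoint T' T2)
    (hza1 : z ≠ a1) (hza : z ≠ a) (hzs : z ≠ s) (hzT2 : z ∉ T2) (hTR : T2.card ≤ R)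
    {F : (ι → Ω) → ℝ} (hF : BM F) (hFa : Ind a1 F) (hFs : Ind s F) (hFz : Ind z F)
    (hFT : ∀ c ∈ T', Ind c F) (hFT2 : ∀ c ∈ T2, Ind c F) :
    NV hk V' (mg μ a1 fun x => mg μ a (fun x => F x * gT A p a (insert a1 (insert s T')) x) x *
      gT A p a1 (insert s T2) x) ≤
      2 ^ T'.card * (2 * η * n2 (PP μ) F) := by
  have haC : a ∉ insert s T2 := by
    rw [mem_insert, not_or]; exact ⟨hsa.symm, haT2⟩
  have ha1' : a1 ∉ insert s T' := by
    rw [mem_insert, not_or]; exact ⟨has1.symm, ha1⟩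
  refine (de_common hk (V' := V') ha1' haa haC hF hFa).trans ?_
  set Z : (ι → Ω) → ℝ := mg μ a1 (gT A p a1 (insert a (insert s T2))) with hZ
  have hZm : BM Z := (BM.gT hk a1 _).mg a1
  have hZc : ∀ c ∈ T', Ind c Z := by
    intro c hc
    apply Ind.mg
    apply gT_ind
    · exact (ne_of_mem_of_not_mem hc ha1).symm
    · rw [mem_insert, mem_insert, not_or, not_or]
      exact ⟨ne_of_mem_of_not_mem hc haT', ne_of_mem_of_not_mem hc hsT',
        Finset.disjoint_left.1 hdis hc⟩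
  have hbg : BM (fun x : ι → Ω => gg A p (x a) (x s)) := BM.pair hk.bmg a s
  have e1 : ∫ x, |F x * Z x * gT A p a (insert s T') x| ∂(PP μ) =
      ∫ x, |(F x * gg A p (x a) (x s) * Z x) * gT A p a T' x| ∂(PP μ) := by
    congr 1; ext x; congr 1; rw [gT_insert hsT']; ring
  rw [e1]
  refine (free_star hk haT' ((hF.mul hbg).mul hZm) (fun c hc =>
    ((hFT c hc).mul (Ind.pair (ne_of_mem_of_not_mem hc haT').symm
      (ne_of_mem_of_not_mem hc hsT').symm _)).mul (hZc c hc))).trans ?_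
  apply mul_le_mul_of_nonneg_left _ (by positivity)
  have hbgb : BM (fun x : ι → Ω => gb A p (x a) (x s)) := BM.pair hk.bmgb a s
  have h2 : ∫ x, |F x * gg A p (x a) (x s) * Z x| ∂(PP μ) ≤
      ∫ x, (|F x| * gb A p (x a) (x s)) * |Z x| ∂(PP μ) := by
    apply integral_mono (((hF.mul hbg).mul hZm).abs.integrable _)
      (((hF.abs.mul hbgb).mul hZm.abs).integrable _)
    intro x
    show |F x * gg A p (x a) (x s) * Z x| ≤ (|F x| * gb A p (x a) (x s)) * |Z x|
    rw [abs_mul, abs_mul]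
    have := hk.abs_g_le_gb (x a) (x s)
    gcongr
  refine h2.trans ?_
  have hI0 : 0 ≤ ∫ x, |F x| ∂(PP μ) := integral_nonneg fun _ => abs_nonneg _
  have hle : ∫ x, |F x| ∂(PP μ) ≤ n2 (PP μ) F := int_abs_le_n2 hF
  rcases Nat.eq_zero_or_pos T2.card with h0 | hpos
  · -- no new edge
    rw [card_eq_zero] at h0
    have hZe : ∀ x, Z x = hh μ A p (x a) (x s) := by
      intro x
      have e3 : (gT A p a1 (insert a (insert s T2)) : (ι → Ω) → ℝ) =
          fun x => gg A p (x a) (x a1) * gg A p (x s) (x a1) := by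
        ext x
        rw [gT_insert haC, gT_insert hsT2, h0, gT_empty, mul_one, hk.g_symm (x a1) (x a),
          hk.g_symm (x a1) (x s)]
      rw [hZ, e3, mg_pair2 haa has1]
      rfl
    have e4 : ∫ x, (|F x| * gb A p (x a) (x s)) * |Z x| ∂(PP μ) =
        ∫ x, |F x| * (gb A p (x a) (x s) * |hh μ A p (x a) (x s)|) ∂(PP μ) := by
      congr 1; ext x; rw [hZe]; ring
    have hbh : BM (fun x : ι → Ω => gb A p (x a) (x s) * |hh μ A p (x a) (x s)|) :=
      hbgb.mul (BM.pair hk.bmh a s).abs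
    rw [e4, integral_mul_mg hF.abs hFs.abs hbh]
    have h5 : ∫ x, |F x| * mg μ s (fun x => gb A p (x a) (x s) * |hh μ A p (x a) (x s)|) x
        ∂(PP μ) ≤ ∫ x, η * |F x| ∂(PP μ) := by
      apply integral_mono ((hF.abs.mul (hbh.mg s)).integrable _) ((hF.abs.integrable _).const_mul _)
      intro x
      show |F x| * mg μ s (fun x => gb A p (x a) (x s) * |hh μ A p (x a) (x s)|) x ≤ η * |F x|
      rw [mul_comm]
      apply mul_le_mul_of_nonneg_right _ (abs_nonneg _)
      have e5 := mg_pair (μ := μ) (k := fun s t => gb A p s t * |hh μ A p s t|) hsa.symm x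
      rw [e5]
      exact hM.m4 (x a)
    refine h5.trans ?_
    rw [integral_const_mul]
    have h6 := hM.eta0
    have h7 := n2_nonneg (P := PP μ) F
    nlinarith [mul_le_mul_of_nonneg_left hle h6, mul_nonneg h6 h7]
  · have h3 := wcs (P := PP μ) (hF.abs.mul hbgb)
      (fun x => mul_nonneg (abs_nonneg _) (hk.gb_nonneg _ _)) hZm
    refine h3.trans ?_
    have h4 := eps_moment hk hM (F := F) hsa haa.symm has1.symm hza hzs hza1 haT2 hsT2 ha1T2 hzT2
      hpos hTR hF hFs hFa hFz hFT2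
    have h5 : ∫ x, |F x| * gb A p (x a) (x s) ∂(PP μ) = 2 * ∫ x, |F x| ∂(PP μ) := by
      have := int_gb_prod hk (a := a) (B := {s}) (by simpa using hsa.symm) hF.abs
        (by intro b hb; rw [mem_singleton] at hb; subst hb; exact hFs.abs)
      simpa using this
    rw [h5]
    set I := ∫ x, |F x| ∂(PP μ) with hI
    have h6 : Real.sqrt (∫ x, (|F x| * gb A p (x a) (x s)) * Z x ^ 2 ∂(PP μ)) ≤
        Real.sqrt (η ^ 2 * I) := Real.sqrt_le_sqrt h4
    have h7 : Real.sqrt (η ^ 2 * I) = η * Real.sqrt I := by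
      rw [Real.sqrt_mul (sq_nonneg _), Real.sqrt_sq hM.eta0]
    have h8 : Real.sqrt (2 * I) ≤ 2 * Real.sqrt I := by
      rw [Real.sqrt_mul (by norm_num : (0 : ℝ) ≤ 2)]
      apply mul_le_mul_of_nonneg_right _ (Real.sqrt_nonneg _)
      rw [Real.sqrt_le_left (by norm_num)]; norm_num
    calc Real.sqrt (2 * I) * Real.sqrt (∫ x, (|F x| * gb A p (x a) (x s)) * Z x ^ 2 ∂(PP μ))
        ≤ (2 * Real.sqrt I) * (η * Real.sqrt I) := by
          rw [← h7]
          exact mul_le_mul h8 h6 (Real.sqrt_nonneg _) (by positivity)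
      _ = 2 * η * (Real.sqrt I * Real.sqrt I) := by ring
      _ = 2 * η * I := by rw [Real.mul_self_sqrt hI0]
      _ ≤ 2 * η * n2 (PP μ) F := by
          apply mul_le_mul_of_nonneg_left hle
          have := hM.eta0
          positivity

end Pool.Agent.H66.RGG
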